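import Mathlib

open Set Filter Topology MeasureTheory

namespace Pool.Agent.X216.CircleDyn

lemma add_int {F : ℝ → ℝ} (h : ∀ x, F (x + 1) = F x + 1) (x : ℝ) (m : ℤ) :
    F (x + m) = F x + m := by
  induction m using Int.induction_on with
  | zero => simp
  | succ i ih => 
    push_cast at ih ⊢
    rw [← add_assoc, h, ih, add_assoc]
  | pred i ih =>
    push_cast at ih ⊢
    have := h (x + (-(i : ℝ) - 1))
    have e : x + (-(i : ℝ) - 1) + 1 = x + -(i : ℝ) := by ring
    rw [e, ih] at this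
    linarith

/-- If no point of the shifted grid falls in a bad position, the map has a periodic point. -/
theorem periodic_of_good {Ψ K : ℝ → ℝ} (hΨc : Continuous Ψ) (hΨm : Monotone Ψ)
    (hΨ1 : ∀ x, Ψ (x + 1) = Ψ x + 1) (hKc : Continuous K) (hKm : Monotone K)
    {N : ℕ} (hN : 0 < N) {η : ℝ} (h1 : η ≤ 1 / N) (h0 : 0 ≤ η) (s t : ℝ)
    (hgood : ∀ i j : ℤ, ¬ (K (Ψ (i / N + η) + t) - η ≤ s + j / N ∧
      s + j / N ≤ K (Ψ ((i + 1) / N) + t))) :
    ∃ n : ℕ, 0 < n ∧ ∃ x : ℝ, ∃ m : ℤ, (fun x => Ψ (K x - s) + t)^[n] x = x + m := by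
  have hNr : (0 : ℝ) < N := by exact_mod_cast hN
  set f : ℝ → ℝ := fun x => Ψ (K x - s) + t with hf
  have hfc : Continuous f := by
    rw [hf]; fun_prop
  set J : ℤ → ℤ := fun i => ⌊(N : ℝ) * (K (Ψ (i / N + η) + t) - s)⌋ with hJ
  have hbc : ∀ i : ℤ, Ψ (i / N + η) ≤ Ψ ((i + 1) / N) := by
    intro i
    apply hΨm
    rw [add_div]
    linarith
  have hJ1 : ∀ i : ℤ, (J i : ℝ) / N + η ≤ K (Ψ (i / N + η) + t) - s ∧
      K (Ψ ((i + 1) / N) + t) - s ≤ ((J i : ℝ) + 1) / N := by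
    intro i
    have e1 : (J i : ℝ) / N ≤ K (Ψ (i / N + η) + t) - s := by
      rw [div_le_iff₀ hNr, mul_comm]
      exact Int.floor_le _
    have e2 : K (Ψ (i / N + η) + t) - s < ((J i : ℝ) + 1) / N := by
      rw [lt_div_iff₀ hNr, mul_comm]
      exact Int.lt_floor_add_one _
    have e3 : K (Ψ (i / N + η) + t) ≤ K (Ψ ((i + 1) / N) + t) := hKm (by linarith [hbc i])
    have g1 := hgood i (J i)
    have g2 := hgood i (J i + 1)
    push_cast at g2
    constructor
    · by_contra hc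
      push Not at hc
      exact g1 ⟨by linarith, by linarith⟩
    · by_contra hc
      push Not at hc
      exact g2 ⟨by linarith, by linarith⟩
  have hmaps : ∀ i : ℤ, MapsTo f (Icc (Ψ (i / N + η) + t) (Ψ ((i + 1) / N) + t))
      (Icc (Ψ ((J i : ℝ) / N + η) + t) (Ψ (((J i : ℝ) + 1) / N) + t)) := by
    intro i x hx
    obtain ⟨j1, j2⟩ := hJ1 i
    have k1 := hKm hx.1
    have k2 := hKm hx.2
    constructor
    · have := hΨm (by linarith : (J i : ℝ) / N + η ≤ K x - s)
      show _ ≤ Ψ (K x - s) + t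
      linarith
    · have := hΨm (by linarith : K x - s ≤ ((J i : ℝ) + 1) / N)
      show Ψ (K x - s) + t ≤ _
      linarith
  have hmapsn : ∀ (n : ℕ) (i : ℤ), MapsTo f^[n] (Icc (Ψ (i / N + η) + t) (Ψ ((i + 1) / N) + t))
      (Icc (Ψ (((J^[n] i : ℤ) : ℝ) / N + η) + t) (Ψ ((((J^[n] i : ℤ) : ℝ) + 1) / N) + t)) := by
    intro n
    induction n with
    | zero => intro i x hx; exact hx
    | succ n ih =>
      intro i x hx
      rw [Function.iterate_succ_apply, Function.iterate_succ_apply]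
      exact ih (J i) (hmaps i hx)
  have : NeZero N := ⟨hN.ne'⟩
  obtain ⟨p, q, hpq, hne⟩ := Finite.exists_ne_map_eq_of_infinite
    (fun p : ℕ => ((J^[p] 0 : ℤ) : ZMod N))
  wlog hlt : p < q generalizing p q with H
  · exact H q p hpq.symm hne.symm (lt_of_le_of_ne (not_lt.1 hlt) hpq.symm)
  have hne' := (ZMod.intCast_eq_intCast_iff_dvd_sub _ _ _).1 hne
  obtain ⟨m, hm⟩ := hne'
  set i : ℤ := J^[p] 0 with hi
  have hJn : J^[q - p] i = i + N * m := by
    have : J^[q] 0 = J^[q - p] i := by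
      rw [hi, ← Function.iterate_add_apply]
      congr 2
      omega
    rw [← this]
    linarith
  refine ⟨q - p, by omega, ?_⟩
  have hmp := hmapsn (q - p) i
  rw [hJn] at hmp
  have hA : (((i + N * m : ℤ) : ℝ)) / N + η = i / N + η + m := by
    push_cast; field_simp; ring
  have hB : ((((i + N * m : ℤ) : ℝ)) + 1) / N = (i + 1) / N + m := by
    push_cast; field_simp; ring
  rw [hA, hB, add_int hΨ1, add_int hΨ1] at hmp
  obtain ⟨c, _, hc⟩ := exists_mem_Icc_isFixedPt_of_mapsTo (f := fun x => f^[q - p] x - m)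
    (a := Ψ (i / N + η) + t) (b := Ψ ((i + 1) / N) + t)
    (((hfc.iterate _).sub continuous_const).continuousOn) (by linarith [hbc i]) (by
      intro x hx
      have := hmp hx
      constructor
      · have := this.1
        show _ ≤ f^[q - p] x - m
        linarith
      · have := this.2
        show f^[q - p] x - m ≤ _
        linarith)
  refine ⟨c, m, ?_⟩
  have : f^[q - p] c - m = c := hc
  linarith

lemma vol_mod (a b : ℝ) :
    (volume.restrict (Ioc (0:ℝ) 1)) {s | ∃ m : ℤ, a ≤ s + m ∧ s + m ≤ b} ≤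
      ENNReal.ofReal (b - a) := by
  rw [Measure.restrict_apply' measurableSet_Ioc]
  have h1 : {s : ℝ | ∃ m : ℤ, a ≤ s + m ∧ s + m ≤ b} ∩ Ioc 0 1 ⊆
      ⋃ m : ℤ, (fun s : ℝ => s + m) ⁻¹' (Icc a b ∩ Ioc (m : ℝ) (m + 1)) := by
    rintro s ⟨⟨m, h1, h2⟩, h3, h4⟩
    refine mem_iUnion.2 ⟨m, ⟨h1, h2⟩, ?_, ?_⟩
    · show (m : ℝ) < s + m
      linarith
    · show s + m ≤ (m : ℝ) + 1
      linarith
  calc _ ≤ volume (⋃ m : ℤ, (fun s : ℝ => s + m) ⁻¹' (Icc a b ∩ Ioc (m : ℝ) (m + 1))) :=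
        measure_mono h1
    _ ≤ ∑' m : ℤ, volume ((fun s : ℝ => s + m) ⁻¹' (Icc a b ∩ Ioc (m : ℝ) (m + 1))) :=
        measure_iUnion_le _
    _ = ∑' m : ℤ, volume (Icc a b ∩ Ioc (m : ℝ) (m + 1)) := by
        congr 1; ext m
        exact measure_preimage_add_right _ _ _
    _ = volume (⋃ m : ℤ, (Icc a b ∩ Ioc (m : ℝ) (m + 1))) := by
        rw [measure_iUnion]
        · intro i j hij
          exact (pairwise_disjoint_Ioc_intCast ℝ hij).mono inter_subset_right inter_subset_right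
        · intro m
          exact measurableSet_Icc.inter measurableSet_Ioc
    _ ≤ volume (Icc a b) := measure_mono (iUnion_subset fun m => inter_subset_left)
    _ = _ := Real.volume_Icc

lemma int_shift {K : ℝ → ℝ} (hKc : Continuous K) (hK1 : ∀ x, K (x + 1) = K x + 1) (c : ℝ) :
    ∫ t in (0:ℝ)..1, K (c + t) = c + ∫ t in (0:ℝ)..1, K t := by
  have hp : Function.Periodic (fun x => K x - x) 1 := by
    intro x
    simp only [hK1]; ring
  have h1 : ∫ t in (0:ℝ)..1, (K (c + t) - (c + t)) = ∫ t in (0:ℝ)..1, (K t - t) := by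
    have e1 := intervalIntegral.integral_comp_add_left (a := 0) (b := 1)
      (fun x => K x - x) c
    rw [e1]
    have e2 := hp.intervalIntegral_add_eq c 0
    simpa using e2
  have h2 : ∫ t in (0:ℝ)..1, (K (c + t) - (c + t)) =
      (∫ t in (0:ℝ)..1, K (c + t)) - ∫ t in (0:ℝ)..1, (c + t) := by
    apply intervalIntegral.integral_sub
    · exact (Continuous.intervalIntegrable (by fun_prop) _ _)
    · exact (Continuous.intervalIntegrable (by fun_prop) _ _)
  have h3 : ∫ t in (0:ℝ)..1, (K t - t) = (∫ t in (0:ℝ)..1, K t) - ∫ t in (0:ℝ)..1, t := by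
    apply intervalIntegral.integral_sub
    · exact (Continuous.intervalIntegrable (by fun_prop) _ _)
    · exact (Continuous.intervalIntegrable (by fun_prop) _ _)
  have h4 : ∫ t in (0:ℝ)..1, (c + t) = c + ∫ t in (0:ℝ)..1, t := by
    rw [intervalIntegral.integral_add]
    · simp
    · exact (Continuous.intervalIntegrable (by fun_prop) _ _)
    · exact (Continuous.intervalIntegrable (by fun_prop) _ _)
  linarith

/-- the reference measure on the parameter space: uniform on the unit square -/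
noncomputable def mu0 : Measure (ℝ × ℝ) :=
  (volume.restrict (Ioc (0:ℝ) 1)).prod (volume.restrict (Ioc (0:ℝ) 1))

lemma piece {K : ℝ → ℝ} (hKc : Continuous K) (hKm : Monotone K)
    (hK1 : ∀ x, K (x + 1) = K x + 1) {b c η : ℝ} (hη : 0 ≤ η) (hbc : b ≤ c) (r : ℝ) :
    mu0 {p : ℝ × ℝ | ∃ m : ℤ, K (b + p.1) - η - r ≤ p.2 + m ∧ p.2 + m ≤ K (c + p.1) - r} ≤
      ENNReal.ofReal (c - b + η) := by
  have hmeas : MeasurableSet
      {p : ℝ × ℝ | ∃ m : ℤ, K (b + p.1) - η - r ≤ p.2 + m ∧ p.2 + m ≤ K (c + p.1) - r} := by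
    have : {p : ℝ × ℝ | ∃ m : ℤ, K (b + p.1) - η - r ≤ p.2 + m ∧ p.2 + m ≤ K (c + p.1) - r} =
      ⋃ m : ℤ, ({p : ℝ × ℝ | K (b + p.1) - η - r ≤ p.2 + m} ∩
        {p : ℝ × ℝ | p.2 + m ≤ K (c + p.1) - r}) := by
      ext p
      simp
    rw [this]
    refine MeasurableSet.iUnion (fun m => ?_)
    refine ((isClosed_le ?_ ?_).inter (isClosed_le ?_ ?_)).measurableSet <;> fun_prop
  unfold mu0
  rw [Measure.prod_apply hmeas]
  have hint : Continuous (fun t : ℝ => K (c + t) - K (b + t) + η) := by fun_prop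
  calc ∫⁻ t in Ioc (0:ℝ) 1, (volume.restrict (Ioc (0:ℝ) 1)) (Prod.mk t ⁻¹'
        {p : ℝ × ℝ | ∃ m : ℤ, K (b + p.1) - η - r ≤ p.2 + m ∧ p.2 + m ≤ K (c + p.1) - r})
      ≤ ∫⁻ t in Ioc (0:ℝ) 1, ENNReal.ofReal (K (c + t) - K (b + t) + η) := by
        refine lintegral_mono (fun t => ?_)
        have := vol_mod (K (b + t) - η - r) (K (c + t) - r)
        have e : K (c + t) - r - (K (b + t) - η - r) = K (c + t) - K (b + t) + η := by ring
        rw [e] at this
        exact this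
    _ = ENNReal.ofReal (∫ t in Ioc (0:ℝ) 1, (K (c + t) - K (b + t) + η)) := by
        rw [ofReal_integral_eq_lintegral_ofReal]
        · exact (hint.integrableOn_Icc).mono_set Ioc_subset_Icc_self
        · refine Eventually.of_forall (fun t => ?_)
          have : K (b + t) ≤ K (c + t) := hKm (by linarith)
          show 0 ≤ K (c + t) - K (b + t) + η
          linarith
    _ = ENNReal.ofReal (c - b + η) := by
        congr 1
        rw [← intervalIntegral.integral_of_le zero_le_one]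
        have e1 : ∫ t in (0:ℝ)..1, (K (c + t) - K (b + t) + η) =
            (∫ t in (0:ℝ)..1, K (c + t)) - (∫ t in (0:ℝ)..1, K (b + t)) + η := by
          rw [intervalIntegral.integral_add, intervalIntegral.integral_sub]
          · simp
          · exact (Continuous.intervalIntegrable (by fun_prop) _ _)
          · exact (Continuous.intervalIntegrable (by fun_prop) _ _)
          · exact (Continuous.intervalIntegrable (by fun_prop) _ _)
          · exact (Continuous.intervalIntegrable (by fun_prop) _ _)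
        rw [e1, int_shift hKc hK1, int_shift hKc hK1]
        ring

theorem bad_measure {Ψ K : ℝ → ℝ} (hΨm : Monotone Ψ)
    (hΨ1 : ∀ x, Ψ (x + 1) = Ψ x + 1) (hKc : Continuous K) (hKm : Monotone K)
    (hK1 : ∀ x, K (x + 1) = K x + 1)
    {N : ℕ} (hN : 0 < N) {η : ℝ} (h1 : η ≤ 1 / N) (h0 : 0 ≤ η) :
    mu0 {p : ℝ × ℝ | ∃ i j : ℤ, K (Ψ (i / N + η) + p.1) - η ≤ p.2 + j / N ∧
      p.2 + j / N ≤ K (Ψ ((i + 1) / N) + p.1)} ≤
    ENNReal.ofReal (N * (N * η + ∑ j ∈ Finset.range N, (Ψ ((j + 1) / N) - Ψ (j / N + η)))) := by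
  have hNr : (0 : ℝ) < N := by exact_mod_cast hN
  have hNz : (0 : ℤ) < N := by exact_mod_cast hN
  have hbc : ∀ i : ℕ, Ψ (i / N + η) ≤ Ψ ((i + 1) / N) := by
    intro i
    apply hΨm
    rw [add_div]
    linarith
  have hsub : {p : ℝ × ℝ | ∃ i j : ℤ, K (Ψ (i / N + η) + p.1) - η ≤ p.2 + j / N ∧
      p.2 + j / N ≤ K (Ψ ((i + 1) / N) + p.1)} ⊆
      ⋃ i ∈ Finset.range N, ⋃ j ∈ Finset.range N,
        {p : ℝ × ℝ | ∃ m : ℤ, K (Ψ ((i : ℕ) / N + η) + p.1) - η - (j : ℕ) / N ≤ p.2 + m ∧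
          p.2 + m ≤ K (Ψ ((i + 1) / N) + p.1) - (j : ℕ) / N} := by
    rintro ⟨t, s⟩ ⟨i, j, hij⟩
    obtain ⟨i0, hi0⟩ : ∃ i0 : ℕ, (i0 : ℤ) = i % N := ⟨(i % N).toNat,
      Int.toNat_of_nonneg (Int.emod_nonneg _ hNz.ne')⟩
    obtain ⟨j0, hj0⟩ : ∃ j0 : ℕ, (j0 : ℤ) = j % N := ⟨(j % N).toNat,
      Int.toNat_of_nonneg (Int.emod_nonneg _ hNz.ne')⟩
    have hi1 : i0 < N := by
      have := Int.emod_lt_of_pos i hNz
      rw [← hi0] at this
      exact_mod_cast this
    have hj1 : j0 < N := by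
      have := Int.emod_lt_of_pos j hNz
      rw [← hj0] at this
      exact_mod_cast this
    have hi2 : i = i0 + N * (i / N) := by
      rw [hi0]; exact (Int.emod_add_mul_ediv i N).symm
    have hj2 : j = j0 + N * (j / N) := by
      rw [hj0]; exact (Int.emod_add_mul_ediv j N).symm
    set a := i / (N : ℤ)
    set b := j / (N : ℤ)
    simp only [mem_iUnion, Finset.mem_range]
    refine ⟨i0, hi1, j0, hj1, b - a, ?_⟩
    simp only at hij ⊢
    have ei : ((i : ℤ) : ℝ) = i0 + N * a := by rw [hi2]; push_cast; rfl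
    have ej : ((j : ℤ) : ℝ) = j0 + N * b := by rw [hj2]; push_cast; rfl
    rw [ei, ej] at hij
    have e1 : ((i0 : ℝ) + N * a) / N + η = i0 / N + η + a := by field_simp; ring
    have e2 : ((i0 : ℝ) + N * a + 1) / N = (i0 + 1) / N + a := by field_simp; ring
    have e3 : ((j0 : ℝ) + N * b) / N = j0 / N + b := by field_simp
    rw [e1, e2, e3, add_int hΨ1, add_int hΨ1] at hij
    have e4 : Ψ (i0 / N + η) + a + t = Ψ (i0 / N + η) + t + a := by ring
    have e5 : Ψ ((i0 + 1) / N) + a + t = Ψ ((i0 + 1) / N) + t + a := by ring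
    rw [e4, e5, add_int hK1, add_int hK1] at hij
    push_cast
    constructor
    · linarith [hij.1]
    · linarith [hij.2]
  calc _ ≤ _ := measure_mono hsub
    _ ≤ ∑ i ∈ Finset.range N, mu0 (⋃ j ∈ Finset.range N,
        {p : ℝ × ℝ | ∃ m : ℤ, K (Ψ ((i : ℕ) / N + η) + p.1) - η - (j : ℕ) / N ≤ p.2 + m ∧
          p.2 + m ≤ K (Ψ ((i + 1) / N) + p.1) - (j : ℕ) / N}) :=
        measure_biUnion_finset_le _ _
    _ ≤ ∑ i ∈ Finset.range N, ∑ j ∈ Finset.range N, mu0 
        {p : ℝ × ℝ | ∃ m : ℤ, K (Ψ ((i : ℕ) / N + η) + p.1) - η - (j : ℕ) / N ≤ p.2 + m ∧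
          p.2 + m ≤ K (Ψ ((i + 1) / N) + p.1) - (j : ℕ) / N} :=
        Finset.sum_le_sum (fun i _ => measure_biUnion_finset_le _ _)
    _ ≤ ∑ i ∈ Finset.range N, ∑ j ∈ Finset.range N,
        ENNReal.ofReal (Ψ ((i + 1) / N) - Ψ (i / N + η) + η) :=
        Finset.sum_le_sum (fun i _ => Finset.sum_le_sum
          (fun j _ => piece hKc hKm hK1 h0 (hbc i) _))
    _ = ∑ i ∈ Finset.range N,
        ENNReal.ofReal (N * (Ψ ((i + 1) / N) - Ψ (i / N + η) + η)) := by
        refine Finset.sum_congr rfl (fun i _ => ?_)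
        rw [Finset.sum_const, Finset.card_range, nsmul_eq_mul,
          ENNReal.ofReal_mul (Nat.cast_nonneg N), ENNReal.ofReal_natCast]
    _ = _ := by
        rw [← ENNReal.ofReal_sum_of_nonneg]
        · congr 1
          rw [← Finset.mul_sum, Finset.sum_add_distrib, Finset.sum_const, Finset.card_range,
            nsmul_eq_mul, add_comm]
        · intro i _
          have := hbc i
          have h2 : 0 ≤ Ψ ((i + 1) / N) - Ψ (i / N + η) + η := by linarith
          positivity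

end Pool.Agent.X216.CircleDyn
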