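import Mathlib

open Set Filter Topology

namespace Pool.Agent.X216.SuperSingular

/-- The zigzag map with slopes `a` and `1/a` on each unit cell. -/
noncomputable def tau (a u : ℝ) : ℝ := min (a * u) (1 - (1 - u) / a)

noncomputable def T (a x : ℝ) : ℝ := ⌊x⌋ + tau a (Int.fract x)

lemma tau_nonneg {a u : ℝ} (ha : 1 ≤ a) (hu : 0 ≤ u) : 0 ≤ tau a u := by
  have h0 : 0 < a := by linarith
  refine le_min (by positivity) ?_
  have : (1 - u) / a ≤ 1 := by
    rw [div_le_one h0]; linarith
  linarith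

lemma tau_lt_one {a u : ℝ} (ha : 1 ≤ a) (hu : u < 1) : tau a u < 1 := by
  have h0 : 0 < a := by linarith
  refine lt_of_le_of_lt (min_le_right _ _) ?_
  have : 0 < (1 - u) / a := div_pos (by linarith) h0
  linarith

lemma tau_le {a u : ℝ} : tau a u ≤ a * u := min_le_left _ _

lemma one_sub_tau_le {a u : ℝ} (ha : 1 ≤ a) (hu : u ≤ 1) : 1 - tau a u ≤ a * (1 - u) := by
  have h0 : 0 < a := by linarith
  have h1 : (1 - u) / a ≤ a * (1 - u) := by
    rw [div_le_iff₀ h0]
    nlinarith [mul_nonneg (sub_nonneg.2 hu) (by nlinarith : (0:ℝ) ≤ a * a - 1)]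
  rcases min_choice (a * u) (1 - (1 - u) / a) with h | h
  · unfold tau
    rw [h]; nlinarith
  · unfold tau
    rw [h]; linarith

lemma tau_lt {a u v : ℝ} (ha : 1 ≤ a) (h : u < v) : tau a u < tau a v := by
  have h0 : 0 < a := by linarith
  refine lt_min ?_ ?_
  · exact lt_of_le_of_lt (min_le_left _ _) (by nlinarith)
  · refine lt_of_le_of_lt (min_le_right _ _) ?_
    have : (1 - v) / a < (1 - u) / a := div_lt_div_of_pos_right (by linarith) h0
    linarith

lemma tau_sub_le {a u v : ℝ} (ha : 1 ≤ a) (h : u ≤ v) : tau a v - tau a u ≤ a * (v - u) := by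
  have h0 : 0 < a := by linarith
  have key : tau a v - a * (v - u) ≤ tau a u := by
    refine le_min ?_ ?_
    · have := min_le_left (a * v) (1 - (1 - v) / a)
      unfold tau; nlinarith
    · have h1 := min_le_right (a * v) (1 - (1 - v) / a)
      have h2 : (v - u) / a ≤ a * (v - u) := by
        rw [div_le_iff₀ h0]
        nlinarith [mul_nonneg (sub_nonneg.2 h) (by nlinarith : (0:ℝ) ≤ a * a - 1)]
      have h3 : (1 - u) / a = (1 - v) / a + (v - u) / a := by ring
      unfold tau; rw [h3]; linarith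
  linarith

lemma T_lt {a x y : ℝ} (ha : 1 ≤ a) (h : x < y) : T a x < T a y := by
  have hfl : ⌊x⌋ ≤ ⌊y⌋ := Int.floor_mono h.le
  rcases hfl.eq_or_lt with he | hlt
  · unfold T
    rw [he]
    have : Int.fract x < Int.fract y := by
      unfold Int.fract; rw [he]; linarith
    have := tau_lt ha this
    linarith
  · have h1 : ((⌊x⌋ : ℤ) : ℝ) + 1 ≤ ⌊y⌋ := by exact_mod_cast hlt
    have h2 := tau_lt_one ha (Int.fract_lt_one x)
    have h3 := tau_nonneg ha (Int.fract_nonneg y)
    unfold T; linarith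

lemma T_sub_le {a x y : ℝ} (ha : 1 ≤ a) (h : x ≤ y) : T a y - T a x ≤ a * (y - x) := by
  have hfl : ⌊x⌋ ≤ ⌊y⌋ := Int.floor_mono h
  rcases hfl.eq_or_lt with he | hlt
  · unfold T
    rw [he]
    have h1 : Int.fract x ≤ Int.fract y := by
      unfold Int.fract; rw [he]; linarith
    have h2 := tau_sub_le ha h1
    have h3 : Int.fract y - Int.fract x = y - x := by
      unfold Int.fract; rw [he]; ring
    rw [h3] at h2
    linarith
  · have h1 : ((⌊x⌋ : ℤ) : ℝ) + 1 ≤ ⌊y⌋ := by exact_mod_cast hlt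
    have h2 := one_sub_tau_le ha (Int.fract_lt_one x).le
    have h3 : tau a (Int.fract y) ≤ a * Int.fract y := tau_le
    have h4 : x = ⌊x⌋ + Int.fract x := (Int.floor_add_fract x).symm
    have h5 : y = ⌊y⌋ + Int.fract y := (Int.floor_add_fract y).symm
    have h6 : y - x = (⌊y⌋ - (⌊x⌋ + 1) : ℝ) + Int.fract y + (1 - Int.fract x) := by
      linarith
    rw [h6]
    unfold T
    nlinarith

lemma T_add_int (a x : ℝ) (k : ℤ) : T a (x + k) = T a x + k := by
  unfold T
  rw [Int.floor_add_intCast, Int.fract_add_intCast]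
  push_cast; ring

lemma T_int {a : ℝ} (ha : 1 ≤ a) (k : ℤ) : T a k = k := by
  have h0 : 0 < a := by linarith
  unfold T tau
  rw [Int.floor_intCast, Int.fract_intCast]
  have : min (a * 0) (1 - (1 - 0) / a) = 0 := by
    rw [mul_zero, min_eq_left]
    have : (1 - 0) / a ≤ 1 := by rw [div_le_one h0]; linarith
    linarith
  rw [this, add_zero]

lemma T_break {a : ℝ} (ha : 1 ≤ a) : T a (1 / (a + 1)) = a / (a + 1) := by
  have h0 : 0 < a := by linarith
  have h1 : (1 : ℝ) / (a + 1) < 1 := by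
    rw [div_lt_one (by linarith)]; linarith
  have h2 : (0 : ℝ) ≤ 1 / (a + 1) := by positivity
  have h3 : ⌊(1 : ℝ) / (a + 1)⌋ = 0 := by
    rw [Int.floor_eq_zero_iff]; exact ⟨h2, h1⟩
  have h4 : Int.fract ((1 : ℝ) / (a + 1)) = 1 / (a + 1) := by
    rw [Int.fract_eq_self]; exact ⟨h2, h1⟩
  unfold T tau
  rw [h3, h4]
  have h5 : 1 - (1 - 1 / (a + 1)) / a = a / (a + 1) := by
    field_simp
    ring
  have h6 : a * (1 / (a + 1)) = a / (a + 1) := by ring
  rw [h5, h6]
  simp

lemma T_dist {a : ℝ} (ha : 1 ≤ a) (x : ℝ) : |T a x - x| ≤ 1 := by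
  have h1 := tau_nonneg ha (Int.fract_nonneg x)
  have h2 := tau_lt_one ha (Int.fract_lt_one x)
  have h3 := Int.fract_nonneg x
  have h4 := Int.fract_lt_one x
  have h5 : x = ⌊x⌋ + Int.fract x := (Int.floor_add_fract x).symm
  have h6 : T a x - x = tau a (Int.fract x) - Int.fract x := by
    unfold T; linarith
  rw [h6, abs_le]
  constructor <;> linarith

/-! ### The scales -/

/-- the grid sizes -/
def M : ℕ → ℕ
  | 0 => 1
  | n + 1 => 2 * M n * ((n + 2) * M n ^ 2)

def Q (n : ℕ) : ℕ := (n + 2) * M n ^ 2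

lemma M_succ (n : ℕ) : M (n + 1) = 2 * M n * Q n := rfl

lemma M_pos (n : ℕ) : 0 < M n := by
  induction n with
  | zero => exact Nat.one_pos
  | succ n ih => unfold M; positivity

lemma Q_ge (n : ℕ) : 2 ≤ Q n := by
  unfold Q
  have h : 1 ≤ M n ^ 2 := Nat.one_le_pow _ _ (M_pos n)
  nlinarith

noncomputable def ar (n : ℕ) : ℝ := (Q n : ℝ) - 1

lemma ar_ge (n : ℕ) : 1 ≤ ar n := by
  unfold ar
  have : (2 : ℝ) ≤ Q n := by exact_mod_cast Q_ge n
  linarith

lemma Mr_pos (n : ℕ) : (0 : ℝ) < M n := by exact_mod_cast M_pos n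

lemma Qr_pos (n : ℕ) : (0 : ℝ) < Q n := by
  have : (2 : ℝ) ≤ Q n := by exact_mod_cast Q_ge n
  linarith

noncomputable def S (n : ℕ) (x : ℝ) : ℝ := T (ar n) (M n * x) / M n

noncomputable def P : ℕ → ℝ → ℝ
  | 0 => id
  | n + 1 => fun x => P n (S n x)

noncomputable def L : ℕ → ℝ
  | 0 => 1
  | n + 1 => L n * ar n

lemma L_pos (n : ℕ) : 0 < L n := by
  induction n with
  | zero => exact one_pos
  | succ n ih => exact mul_pos ih (by linarith [ar_ge n])

lemma L_le (n : ℕ) : L n * 2 ^ n ≤ M n := by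
  induction n with
  | zero => simp [L, M]
  | succ n ih =>
    rw [M_succ]
    have h1 : ar n ≤ Q n := by unfold ar; linarith
    have h2 : 0 < ar n := by linarith [ar_ge n]
    show L n * ar n * 2 ^ (n + 1) ≤ _
    push_cast
    calc L n * ar n * 2 ^ (n + 1) = 2 * (L n * 2 ^ n) * ar n := by ring
      _ ≤ 2 * (M n) * Q n := by
          have := L_pos n
          gcongr

lemma S_lt (n : ℕ) {x y : ℝ} (h : x < y) : S n x < S n y := by
  unfold S
  have := Mr_pos n
  exact div_lt_div_of_pos_right (T_lt (ar_ge n) (by nlinarith)) this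

lemma S_sub_le (n : ℕ) {x y : ℝ} (h : x ≤ y) : S n y - S n x ≤ ar n * (y - x) := by
  unfold S
  have hM := Mr_pos n
  have h1 := T_sub_le (ar_ge n) (by nlinarith : (M n : ℝ) * x ≤ M n * y)
  rw [← sub_div, div_le_iff₀ hM]
  calc _ ≤ _ := h1
    _ = _ := by ring

lemma S_dist (n : ℕ) (x : ℝ) : |S n x - x| ≤ 1 / M n := by
  unfold S
  have hM := Mr_pos n
  have h1 := T_dist (ar_ge n) (M n * x)
  have h2 : T (ar n) (M n * x) / M n - x = (T (ar n) (M n * x) - M n * x) / M n := by
    field_simp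
  rw [h2, abs_div, abs_of_pos hM]
  gcongr

lemma S_add_grid (n : ℕ) (x : ℝ) (k : ℤ) : S n (x + k / M n) = S n x + k / M n := by
  unfold S
  have hM := Mr_pos n
  have h1 : (M n : ℝ) * (x + k / M n) = M n * x + k := by
    field_simp
  rw [h1, T_add_int, add_div]

lemma S_grid (n : ℕ) (k : ℤ) : S n (k / M n) = k / M n := by
  unfold S
  have hM := Mr_pos n
  have h1 : (M n : ℝ) * (k / M n) = k := by
    field_simp
  rw [h1, T_int (ar_ge n)]

lemma S_break (n : ℕ) (k : ℤ) :
    S n (k / M n + 1 / (M n * Q n)) = (k + 1) / M n - 1 / (M n * Q n) := by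
  have hM := Mr_pos n
  have hQ := Qr_pos n
  have h0 : (k / M n + 1 / (M n * Q n) : ℝ) = 1 / (M n * Q n) + k / M n := by ring
  rw [h0, S_add_grid]
  unfold S
  have hq : ar n + 1 = Q n := by unfold ar; ring
  have h1 : (M n : ℝ) * (1 / (M n * Q n)) = 1 / (ar n + 1) := by
    rw [hq]
    field_simp
  rw [h1, T_break (ar_ge n), hq]
  have hq2 : ar n = Q n - 1 := rfl
  rw [hq2]
  field_simp
  ring

lemma P_lt (n : ℕ) {x y : ℝ} (h : x < y) : P n x < P n y := by
  induction n generalizing x y with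
  | zero => exact h
  | succ n ih => exact ih (S_lt n h)

lemma P_sub_le (n : ℕ) {x y : ℝ} (h : x ≤ y) : P n y - P n x ≤ L n * (y - x) := by
  induction n generalizing x y with
  | zero => simp [P, L]
  | succ n ih =>
    have hS : S n x ≤ S n y := by
      rcases h.eq_or_lt with rfl | h
      · exact le_rfl
      · exact (S_lt n h).le
    calc P (n + 1) y - P (n + 1) x = P n (S n y) - P n (S n x) := rfl
      _ ≤ L n * (S n y - S n x) := ih hS
      _ ≤ L n * (ar n * (y - x)) := mul_le_mul_of_nonneg_left (S_sub_le n h) (L_pos n).le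
      _ = L n * ar n * (y - x) := by ring

lemma P_abs_sub_le (n : ℕ) (x y : ℝ) : |P n y - P n x| ≤ L n * |y - x| := by
  rcases le_total x y with h | h
  · have h1 := P_sub_le n h
    have h2 : P n x ≤ P n y := by
      rcases h.eq_or_lt with rfl | h
      · exact le_rfl
      · exact (P_lt n h).le
    rw [abs_of_nonneg (by linarith), abs_of_nonneg (by linarith)]
    exact h1
  · have h1 := P_sub_le n h
    have h2 : P n y ≤ P n x := by
      rcases h.eq_or_lt with rfl | h
      · exact le_rfl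
      · exact (P_lt n h).le
    rw [abs_sub_comm, abs_sub_comm y x, abs_of_nonneg (by linarith), abs_of_nonneg (by linarith)]
    exact h1

lemma S_add_one (n : ℕ) (x : ℝ) : S n (x + 1) = S n x + 1 := by
  have hM := Mr_pos n
  have := S_add_grid n x (M n : ℤ)
  push_cast at this
  rwa [div_self hM.ne'] at this

lemma P_add_one (n : ℕ) (x : ℝ) : P n (x + 1) = P n x + 1 := by
  induction n generalizing x with
  | zero => rfl
  | succ n ih =>
    show P n (S n (x + 1)) = P n (S n x) + 1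
    rw [S_add_one, ih]

lemma P_dist_succ (n : ℕ) (x : ℝ) : dist (P n x) (P (n + 1) x) ≤ 1 * (1 / 2) ^ n := by
  rw [dist_comm, Real.dist_eq]
  show |P n (S n x) - P n x| ≤ _
  have hM := Mr_pos n
  calc |P n (S n x) - P n x| ≤ L n * |S n x - x| := P_abs_sub_le n _ _
    _ ≤ L n * (1 / M n) := mul_le_mul_of_nonneg_left (S_dist n x) (L_pos n).le
    _ ≤ 1 * (1 / 2) ^ n := by
        rw [mul_one_div, div_le_iff₀ hM, one_mul, one_div, inv_pow, inv_mul_eq_div,
          le_div_iff₀ (by positivity)]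
        exact L_le n

noncomputable def Psi (x : ℝ) : ℝ := Classical.choose (cauchySeq_tendsto_of_complete
  (cauchySeq_of_le_geometric (1 / 2) 1 (by norm_num) (fun n => P_dist_succ n x)))

lemma Psi_tendsto (x : ℝ) : Tendsto (fun n => P n x) atTop (𝓝 (Psi x)) :=
  Classical.choose_spec (cauchySeq_tendsto_of_complete
  (cauchySeq_of_le_geometric (1 / 2) 1 (by norm_num) (fun n => P_dist_succ n x)))

lemma Psi_dist (n : ℕ) (x : ℝ) : dist (P n x) (Psi x) ≤ 2 * (1 / 2) ^ n := by
  have := dist_le_of_le_geometric_of_tendsto (1 / 2) 1 (by norm_num) (fun n => P_dist_succ n x)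
    (Psi_tendsto x) n
  calc _ ≤ _ := this
    _ = _ := by ring

lemma P_continuous (n : ℕ) : Continuous (P n) := by
  have h : LipschitzWith (Real.toNNReal (L n)) (P n) := by
    refine LipschitzWith.of_dist_le_mul (fun x y => ?_)
    rw [Real.dist_eq, Real.dist_eq, Real.coe_toNNReal _ (L_pos n).le]
    exact P_abs_sub_le n y x
  exact h.continuous

lemma Psi_continuous : Continuous Psi := by
  have h : TendstoUniformly (fun n => P n) Psi atTop := by
    rw [Metric.tendstoUniformly_iff]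
    intro ε hε
    have h1 : Tendsto (fun n : ℕ => (2 : ℝ) * (1 / 2) ^ n) atTop (𝓝 (2 * 0)) :=
      (tendsto_pow_atTop_nhds_zero_of_lt_one (by norm_num) (by norm_num)).const_mul 2
    rw [mul_zero] at h1
    filter_upwards [h1.eventually (gt_mem_nhds hε)] with n hn x
    rw [dist_comm]
    exact (Psi_dist n x).trans_lt hn
  exact h.continuous (Eventually.frequently (Eventually.of_forall P_continuous))

lemma Psi_add_one (x : ℝ) : Psi (x + 1) = Psi x + 1 := by
  refine tendsto_nhds_unique (Psi_tendsto (x + 1)) ?_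
  simp_rw [P_add_one]
  exact (Psi_tendsto x).add_const 1

lemma Psi_mono {x y : ℝ} (h : x ≤ y) : Psi x ≤ Psi y := by
  refine le_of_tendsto_of_tendsto' (Psi_tendsto x) (Psi_tendsto y) (fun n => ?_)
  rcases h.eq_or_lt with rfl | h
  · exact le_rfl
  · exact (P_lt n h).le

lemma M_dvd_succ (n : ℕ) : M n ∣ M (n + 1) := by
  rw [M_succ]; exact ⟨2 * Q n, by ring⟩

lemma M_dvd {m n : ℕ} (h : m ≤ n) : M m ∣ M n := by
  induction n, h using Nat.le_induction with
  | base => exact dvd_rfl
  | succ n _ ih => exact ih.trans (M_dvd_succ n)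

lemma P_grid_stable {m n : ℕ} (h : m ≤ n) (k : ℤ) :
    P n (k / M m) = P m (k / M m) := by
  induction n, h using Nat.le_induction with
  | base => rfl
  | succ n hn ih =>
    show P n (S n _) = _
    obtain ⟨c, hc⟩ := M_dvd hn
    have hM := Mr_pos n
    have hM' := Mr_pos m
    have h1 : ((k : ℝ) / M m) = ((k * c : ℤ) : ℝ) / M n := by
      rw [hc] at hM ⊢
      push_cast at hM ⊢
      have hc0 : (c : ℝ) ≠ 0 := by
        rintro h0; rw [h0, mul_zero] at hM; exact lt_irrefl _ hM
      field_simp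
    rw [h1, S_grid, ← h1, ih]

lemma Psi_grid (m : ℕ) (k : ℤ) : Psi (k / M m) = P m (k / M m) := by
  refine tendsto_nhds_unique (Psi_tendsto _) ?_
  refine tendsto_const_nhds.congr' ?_
  filter_upwards [eventually_ge_atTop m] with n hn
  exact (P_grid_stable hn k).symm

lemma two_pow_le_M (n : ℕ) : (2 : ℝ) ^ n ≤ M n := by
  have h : 2 ^ n ≤ M n := by
    induction n with
    | zero => simp [M]
    | succ n ih =>
      rw [M_succ, pow_succ]
      have := Q_ge n
      nlinarith [M_pos n]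
  exact_mod_cast h

lemma Psi_strictMono : StrictMono Psi := by
  intro x y hxy
  obtain ⟨n, hn⟩ : ∃ n : ℕ, 2 / (y - x) < (2 : ℝ) ^ n := pow_unbounded_of_one_lt _ (by norm_num)
  have hM := Mr_pos n
  have h1 : 2 / (y - x) < M n := hn.trans_le (two_pow_le_M n)
  have h2 : 2 / (M n : ℝ) < y - x := by
    have h3 : 0 < y - x := by linarith
    rw [div_lt_iff₀ hM]
    rw [div_lt_iff₀ h3] at h1
    linarith
  set l : ℤ := ⌊(M n : ℝ) * x⌋ + 1 with hl
  have h4 : (M n : ℝ) * x < l := by rw [hl]; push_cast; exact Int.lt_floor_add_one _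
  have h5 : (l : ℝ) ≤ M n * x + 1 := by
    rw [hl]; push_cast
    have := Int.floor_le ((M n : ℝ) * x)
    linarith
  have h6 : x ≤ l / M n := by
    rw [le_div_iff₀ hM]; linarith
  have h7 : ((l + 1 : ℤ) : ℝ) / M n ≤ y := by
    rw [div_le_iff₀ hM]
    push_cast
    rw [div_lt_iff₀ hM] at h2
    nlinarith
  calc Psi x ≤ Psi (l / M n) := Psi_mono h6
    _ = P n (l / M n) := Psi_grid n l
    _ < P n (((l + 1 : ℤ) : ℝ) / M n) := P_lt n (by push_cast; gcongr; linarith)
    _ = Psi (((l + 1 : ℤ) : ℝ) / M n) := (Psi_grid n (l + 1)).symm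
    _ ≤ Psi y := Psi_mono h7

lemma Psi_gap (n : ℕ) (k : ℤ) :
    Psi ((k + 1) / M n) - Psi (k / M n + 1 / (M n * Q n)) ≤ L n * (1 / (M n * Q n)) := by
  have hM := Mr_pos n
  have hQ := Qr_pos n
  have h1 : (k / M n + 1 / (M n * Q n) : ℝ) = ((2 * (k * Q n + 1) : ℤ) : ℝ) / M (n + 1) := by
    rw [M_succ]
    push_cast
    field_simp
  have h2 : Psi (k / M n + 1 / (M n * Q n)) = P n ((k + 1) / M n - 1 / (M n * Q n)) := by
    rw [h1, Psi_grid, ← h1]
    show P n (S n _) = _
    rw [S_break]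
  have h3 : Psi ((k + 1) / M n) = P n ((k + 1) / M n) := by
    have := Psi_grid n (k + 1)
    push_cast at this
    exact this
  rw [h2, h3]
  have h4 : ((k + 1) / M n - 1 / (M n * Q n) : ℝ) ≤ (k + 1) / M n := by
    have : (0 : ℝ) ≤ 1 / (M n * Q n) := by positivity
    linarith
  calc _ ≤ _ := P_sub_le n h4
    _ = _ := by ring

/-- The strong singularity property. -/
theorem Psi_singular (ε : ℝ) (hε : 0 < ε) : ∃ N : ℕ, 0 < N ∧ ∃ η : ℝ, 0 ≤ η ∧ η ≤ 1 / N ∧
    N * (N * η + ∑ j ∈ Finset.range N, (Psi ((j + 1) / N) - Psi (j / N + η))) < ε := by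
  obtain ⟨n, hn⟩ := exists_nat_gt (2 / ε)
  have hM := Mr_pos n
  have hM1 : (1 : ℝ) ≤ M n := by exact_mod_cast M_pos n
  have hQ := Qr_pos n
  have hQM : (Q n : ℝ) = (n + 2) * (M n) ^ 2 := by unfold Q; push_cast; ring
  have hQ1 : (1 : ℝ) ≤ Q n := by exact_mod_cast (by have := Q_ge n; omega : 1 ≤ Q n)
  refine ⟨M n, M_pos n, 1 / (M n * Q n), by positivity, ?_, ?_⟩
  · apply one_div_le_one_div_of_le hM
    nlinarith
  · have h1 : ∑ j ∈ Finset.range (M n), (Psi ((j + 1) / M n) - Psi (j / M n + 1 / (M n * Q n)))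
        ≤ ∑ j ∈ Finset.range (M n), L n * (1 / (M n * Q n)) := by
      apply Finset.sum_le_sum
      intro j _
      have := Psi_gap n (j : ℤ)
      push_cast at this
      exact this
    rw [Finset.sum_const, Finset.card_range, nsmul_eq_mul] at h1
    have hL : L n ≤ M n := by
      have h2 := L_le n
      have h3 : (1 : ℝ) ≤ 2 ^ n := one_le_pow₀ (by norm_num)
      nlinarith [L_pos n]
    have h2 : (M n : ℝ) * (M n * (1 / (M n * Q n)) + M n * (L n * (1 / (M n * Q n))))
        ≤ 2 / (n + 2) := by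
      have e1 : (M n : ℝ) * (M n * (1 / (M n * Q n)) + M n * (L n * (1 / (M n * Q n))))
        = (M n * (1 + L n)) / Q n := by
        field_simp
      rw [e1, hQM, div_le_div_iff₀ (by positivity) (by positivity)]
      have : (0 : ℝ) < (n : ℝ) + 2 := by positivity
      have h5 : M n * (1 + L n) ≤ 2 * (M n : ℝ) ^ 2 := by nlinarith
      nlinarith
    have h3 : 2 / ((n : ℝ) + 2) < ε := by
      rw [div_lt_iff₀ (by positivity)]
      rw [div_lt_iff₀ hε] at hn
      nlinarith
    calc _ ≤ (M n : ℝ) * (M n * (1 / (M n * Q n)) + M n * (L n * (1 / (M n * Q n)))) := by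
          gcongr
      _ ≤ _ := h2
      _ < _ := h3

end Pool.Agent.X216.SuperSingular
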