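import Mathlib

/-!
# Dense subgroups of the line covered by countably many compact null sets are not plastic
-/

open Set MeasureTheory Filter Topology

namespace Pool.Agent.X216.EPlastic

/-! ### Bumps -/

/-- the tent function -/
def tent (x : ℝ) : ℝ := max 0 (1 - |x|)

lemma tent_zero : tent 0 = 1 := by simp [tent]

lemma tent_nonneg (x : ℝ) : 0 ≤ tent x := le_max_left _ _

lemma tent_le_one (x : ℝ) : tent x ≤ 1 := by
  unfold tent
  have := abs_nonneg x
  exact max_le zero_le_one (by linarith)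

lemma tent_eq_zero {x : ℝ} (h : 1 ≤ |x|) : tent x = 0 := by
  unfold tent
  exact max_eq_left (by linarith)

lemma tent_lip (x y : ℝ) : |tent x - tent y| ≤ |x - y| := by
  unfold tent
  rw [max_comm 0 (1 - |x|), max_comm 0 (1 - |y|)]
  refine (abs_max_sub_max_le_abs _ _ _).trans ?_
  have : (1 - |x|) - (1 - |y|) = |y| - |x| := by ring
  rw [this, abs_sub_comm x y]
  exact abs_abs_sub_abs_le _ _

lemma exists_sep (A : Finset ℝ) : ∃ ρ > 0, ∀ a ∈ A, ∀ b ∈ A, a ≠ b → 2 * ρ ≤ |a - b| := by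
  classical
  by_cases h : ((A ×ˢ A).filter fun p => p.1 ≠ p.2).Nonempty
  · obtain ⟨p, hp, hmin⟩ := Finset.exists_min_image _ (fun p : ℝ × ℝ => |p.1 - p.2|) h
    rw [Finset.mem_filter] at hp
    refine ⟨|p.1 - p.2| / 2, half_pos (abs_pos.2 (sub_ne_zero.2 hp.2)), ?_⟩
    intro a ha b hb hab
    have := hmin (a, b) (Finset.mem_filter.2 ⟨Finset.mem_product.2 ⟨ha, hb⟩, hab⟩)
    simp only at this
    linarith
  · refine ⟨1, one_pos, fun a ha b hb hab => absurd ?_ h⟩
    exact ⟨(a, b), Finset.mem_filter.2 ⟨Finset.mem_product.2 ⟨ha, hb⟩, hab⟩⟩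

lemma bump (A : Finset ℝ) {ε : ℝ} (hε : 0 < ε) : ∃ δ > 0, ∀ s t : ℝ → ℝ,
    (∀ a ∈ A, |s a - a| ≤ δ) → (∀ a ∈ A, |t a - a| ≤ δ) →
    ∃ η : ℝ → ℝ, Monotone η ∧ (∀ x y, x ≤ y → η y - η x ≤ (1 + ε) * (y - x)) ∧
      (∀ x, |η x - x| ≤ ε) ∧ ∀ a ∈ A, η (s a) = t a := by
  obtain ⟨ρ, hρ, hsep⟩ := exists_sep A
  set ε' : ℝ := min ε 1 with hε'
  have hε'0 : 0 < ε' := lt_min hε one_pos
  set N : ℝ := (A.card : ℝ) + 1 with hN
  have hN0 : 0 < N := by positivity
  set δ : ℝ := min (ρ / 2) (min (ε' * ρ / (2 * N)) (ε' / (2 * N))) with hδ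
  have hδ0 : 0 < δ := by positivity
  have hδ1 : δ ≤ ρ / 2 := min_le_left _ _
  have hδ2 : δ ≤ ε' * ρ / (2 * N) := (min_le_right _ _).trans (min_le_left _ _)
  have hδ3 : δ ≤ ε' / (2 * N) := (min_le_right _ _).trans (min_le_right _ _)
  refine ⟨δ, hδ0, fun s t hs ht => ?_⟩
  set b : ℝ → ℝ := fun x => ∑ a ∈ A, (t a - s a) * tent ((x - s a) / ρ) with hb
  have hts : ∀ a ∈ A, |t a - s a| ≤ 2 * δ := by
    intro a ha
    have e : t a - s a = (t a - a) - (s a - a) := by ring
    rw [e]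
    refine (abs_sub _ _).trans ?_
    have := hs a ha
    have := ht a ha
    linarith
  have hcard : (A.card : ℝ) ≤ N := by rw [hN]; linarith
  have hlip : ∀ x y, |b y - b x| ≤ ε' * |y - x| := by
    intro x y
    have e : b y - b x = ∑ a ∈ A, (t a - s a) * (tent ((y - s a) / ρ) - tent ((x - s a) / ρ)) := by
      simp only [hb, ← Finset.sum_sub_distrib]
      exact Finset.sum_congr rfl fun a _ => by ring
    rw [e]
    refine (Finset.abs_sum_le_sum_abs _ _).trans ?_
    have h1 : ∀ a ∈ A, |(t a - s a) * (tent ((y - s a) / ρ) - tent ((x - s a) / ρ))|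
        ≤ 2 * δ * (|y - x| / ρ) := by
      intro a ha
      rw [abs_mul]
      refine mul_le_mul (hts a ha) ?_ (abs_nonneg _) (by positivity)
      refine (tent_lip _ _).trans (le_of_eq ?_)
      rw [← sub_div, abs_div, abs_of_pos hρ]
      congr 2
      ring
    refine (Finset.sum_le_sum h1).trans ?_
    rw [Finset.sum_const, nsmul_eq_mul]
    have h2 : (A.card : ℝ) * (2 * δ * (|y - x| / ρ)) ≤ N * (2 * δ * (|y - x| / ρ)) :=
      mul_le_mul_of_nonneg_right hcard (by positivity)
    refine h2.trans ?_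
    have h3 : N * (2 * δ) ≤ ε' * ρ := by
      have := mul_le_mul_of_nonneg_left hδ2 (by positivity : (0 : ℝ) ≤ 2 * N)
      rw [mul_div_cancel₀ _ (by positivity)] at this
      linarith
    have h4 : N * (2 * δ * (|y - x| / ρ)) = (N * (2 * δ)) * (|y - x| / ρ) := by ring
    rw [h4]
    refine (mul_le_mul_of_nonneg_right h3 (by positivity)).trans (le_of_eq ?_)
    field_simp
  have hbd : ∀ x, |b x| ≤ ε' := by
    intro x
    simp only [hb]
    refine (Finset.abs_sum_le_sum_abs _ _).trans ?_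
    have h1 : ∀ a ∈ A, |(t a - s a) * tent ((x - s a) / ρ)| ≤ 2 * δ := by
      intro a ha
      rw [abs_mul, abs_of_nonneg (tent_nonneg _)]
      calc |t a - s a| * tent ((x - s a) / ρ) ≤ (2 * δ) * 1 :=
            mul_le_mul (hts a ha) (tent_le_one _) (tent_nonneg _) (by positivity)
        _ = 2 * δ := mul_one _
    refine (Finset.sum_le_sum h1).trans ?_
    rw [Finset.sum_const, nsmul_eq_mul]
    have h2 : (A.card : ℝ) * (2 * δ) ≤ N * (2 * δ) :=
      mul_le_mul_of_nonneg_right hcard (by positivity)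
    refine h2.trans ?_
    have := mul_le_mul_of_nonneg_left hδ3 (by positivity : (0 : ℝ) ≤ 2 * N)
    rw [mul_div_cancel₀ _ (by positivity)] at this
    linarith
  have hε'1 : ε' ≤ 1 := min_le_right _ _
  have hε'ε : ε' ≤ ε := min_le_left _ _
  refine ⟨fun x => x + b x, ?_, ?_, ?_, ?_⟩
  · intro x y hxy
    have h1 := hlip x y
    rw [abs_of_nonneg (sub_nonneg.2 hxy)] at h1
    have h2 := (abs_le.1 h1).1
    have h3 : ε' * (y - x) ≤ 1 * (y - x) := mul_le_mul_of_nonneg_right hε'1 (sub_nonneg.2 hxy)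
    simp only
    linarith
  · intro x y hxy
    have h1 := hlip x y
    rw [abs_of_nonneg (sub_nonneg.2 hxy)] at h1
    have h2 := (abs_le.1 h1).2
    have h3 : ε' * (y - x) ≤ ε * (y - x) := mul_le_mul_of_nonneg_right hε'ε (sub_nonneg.2 hxy)
    simp only
    linarith
  · intro x
    simp only [add_sub_cancel_left]
    exact (hbd x).trans hε'ε
  · intro a ha
    have h1 : b (s a) = t a - s a := by
      simp only [hb]
      rw [Finset.sum_eq_single a]
      · rw [sub_self, zero_div, tent_zero, mul_one]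
      · intro c hc hca
        rw [tent_eq_zero, mul_zero]
        rw [abs_div, abs_of_pos hρ, le_div_iff₀ hρ, one_mul]
        have h2 := hsep a ha c hc (Ne.symm hca)
        have h3 := hs a ha
        have h4 := hs c hc
        have h5 : |a - c| ≤ |s a - s c| + |s a - a| + |s c - c| := by
          have e : a - c = (s a - s c) - (s a - a) + (s c - c) := by ring
          rw [e]
          refine (abs_add_le _ _).trans ?_
          have := abs_sub (s a - s c) (s a - a)
          linarith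
        linarith
      · intro h
        exact absurd ha h
    simp only [h1]
    ring

/-! ### Collapsing a neighbourhood of a compact null set -/

lemma collapse (K : Set ℝ) (hK : IsCompact K) (h0 : volume K = 0) {δ : ℝ} (hδ : 0 < δ) :
    ∃ h : ℝ → ℝ, Monotone h ∧ (∀ x y, x ≤ y → h y - h x ≤ y - x) ∧ (∀ x, |h x - x| ≤ δ) ∧
      ∃ V, IsOpen V ∧ K ⊆ V ∧ (h '' V).Finite := by
  obtain ⟨U, hKU, hU, hUδ⟩ := K.exists_isOpen_lt_of_lt (μ := volume) (ENNReal.ofReal δ)
    (by rw [h0]; exact ENNReal.ofReal_pos.2 hδ)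
  have h1 : ∀ x ∈ K, ∃ r > 0, Metric.ball x r ⊆ U := fun x hx =>
    Metric.isOpen_iff.1 hU x (hKU hx)
  choose! r hr hrU using h1
  obtain ⟨s, hs⟩ := hK.elim_nhds_subcover' (fun x hx => Metric.ball x (r x))
    (fun x hx => Metric.ball_mem_nhds x (hr x hx))
  set V : Set ℝ := ⋃ x ∈ s, Metric.ball (x : ℝ) (r x) with hV
  have hVU : V ⊆ U := iUnion₂_subset fun x _ => hrU x x.2
  have hVδ : volume V < ENNReal.ofReal δ := (measure_mono hVU).trans_lt hUδ
  have hVf : volume V ≠ ⊤ := (hVδ.trans ENNReal.ofReal_lt_top).ne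
  have hVo : IsOpen V := isOpen_biUnion fun x _ => Metric.isOpen_ball
  set L : ℝ → ℝ := fun x => volume.real (V ∩ Iic x) with hL
  have hfin : ∀ x, volume (V ∩ Iic x) ≠ ⊤ := fun x =>
    ((measure_mono inter_subset_left).trans_lt (lt_top_iff_ne_top.2 hVf)).ne
  have hLmono : Monotone L := by
    intro x y hxy
    exact measureReal_mono (inter_subset_inter_right _ (Iic_subset_Iic.2 hxy)) (hfin y)
  have hLsub : ∀ x y, x ≤ y → L y = L x + volume.real (V ∩ Ioc x y) := by
    intro x y hxy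
    simp only [hL]
    rw [← measureReal_union]
    · rw [← inter_union_distrib_left, Iic_union_Ioc_eq_Iic hxy]
    · exact (Iic_disjoint_Ioc le_rfl).mono inter_subset_right inter_subset_right
    · exact hVo.measurableSet.inter measurableSet_Ioc
  refine ⟨fun x => x - L x, ?_, ?_, ?_, V, hVo, ?_, ?_⟩
  · intro x y hxy
    have h2 : volume.real (V ∩ Ioc x y) ≤ y - x := by
      refine (measureReal_mono inter_subset_right (by simp)).trans (le_of_eq ?_)
      rw [Real.volume_real_Ioc_of_le hxy]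
    have := hLsub x y hxy
    simp only
    linarith
  · intro x y hxy
    have := hLmono hxy
    simp only
    linarith
  · intro x
    have h2 : L x ≤ δ := by
      have h3 : volume (V ∩ Iic x) ≤ ENNReal.ofReal δ := (measure_mono inter_subset_left).trans hVδ.le
      exact ENNReal.toReal_le_of_le_ofReal hδ.le h3
    have h3 : 0 ≤ L x := measureReal_nonneg
    rw [sub_sub_cancel_left, abs_neg, abs_of_nonneg h3]
    exact h2
  · intro x hx
    exact hs hx
  · have h2 : (fun x => x - L x) '' V ⊆ ⋃ x ∈ s, (fun z => z - L z) '' Metric.ball (x : ℝ) (r x) := by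
      rintro _ ⟨z, hz, rfl⟩
      obtain ⟨x, hx, hz'⟩ := mem_iUnion₂.1 hz
      exact mem_iUnion₂.2 ⟨x, hx, z, hz', rfl⟩
    refine Finite.subset (s.finite_toSet.biUnion fun x hx => ?_) h2
    have h3 : ∀ z ∈ Metric.ball (x : ℝ) (r x), ∀ w ∈ Metric.ball (x : ℝ) (r x), z ≤ w →
        z - L z = w - L w := by
      intro z hz w hw hzw
      have h4 : Ioc z w ⊆ V := by
        intro u hu
        refine mem_iUnion₂.2 ⟨x, hx, ?_⟩
        rw [Real.ball_eq_Ioo] at hz hw ⊢
        exact ⟨hz.1.trans hu.1, hu.2.trans_lt hw.2⟩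
      have h5 := hLsub z w hzw
      rw [inter_eq_right.2 h4, Real.volume_real_Ioc_of_le hzw] at h5
      linarith
    apply Set.Subsingleton.finite
    rintro _ ⟨z, hz, rfl⟩ _ ⟨w, hw, rfl⟩
    rcases le_total z w with h | h
    · exact h3 z hz w hw h
    · exact (h3 w hw z hz h).symm

/-- the collapsing map, with values in `G` near `K` and fixing the finite set `D` -/
lemma eta (G : AddSubgroup ℝ) (hd : Dense (G : Set ℝ)) (K : Set ℝ) (hK : IsCompact K)
    (h0 : volume K = 0) (D : Finset ℝ) (hD : ∀ d ∈ D, d ∈ G) {ε : ℝ} (hε : 0 < ε) :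
    ∃ η : ℝ → ℝ, Monotone η ∧ (∀ x y, x ≤ y → η y - η x ≤ (1 + ε) * (y - x)) ∧
      (∀ x, |η x - x| ≤ ε) ∧ (∀ d ∈ D, η d = d) ∧
      ∃ V, IsOpen V ∧ K ⊆ V ∧ ∃ D' : Finset ℝ, (∀ d ∈ D', d ∈ G) ∧ ∀ x ∈ V, η x ∈ D' := by
  classical
  set e : ℝ := min ε 1 / 3 with he
  have he0 : 0 < e := by positivity
  have he1 : e ≤ 1 / 3 := by
    have := min_le_right ε 1
    rw [he]; linarith
  have he2 : 3 * e ≤ ε := by
    have := min_le_left ε 1
    rw [he]; linarith
  obtain ⟨δ, hδ, hb⟩ := bump D he0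
  set δ' : ℝ := min δ e with hδ'
  have hδ'0 : 0 < δ' := lt_min hδ he0
  obtain ⟨h, hm, hl, hdist, V, hVo, hKV, hVfin⟩ := collapse K hK h0 hδ'0
  -- first correction
  obtain ⟨η₁, m1, l1, d1, f1⟩ := hb h id
    (fun a _ => (hdist a).trans (min_le_left _ _)) (fun a _ => by simp [hδ.le])
  -- second correction
  set A : Finset ℝ := D ∪ (hVfin.toFinset.image η₁) with hA
  obtain ⟨δ₂, hδ₂, hb₂⟩ := bump A he0
  have hch : ∀ a : ℝ, ∃ g ∈ G, |g - a| ≤ δ₂ ∧ (a ∈ G → g = a) := by
    intro a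
    by_cases ha : a ∈ G
    · exact ⟨a, ha, by simp [hδ₂.le], fun _ => rfl⟩
    · obtain ⟨g, hg, hg2⟩ := hd.exists_dist_lt a hδ₂
      refine ⟨g, hg, ?_, fun h => absurd h ha⟩
      rw [Real.dist_eq, abs_sub_comm] at hg2
      exact hg2.le
  choose t htG htd hteq using hch
  obtain ⟨η₂, m2, l2, d2, f2⟩ := hb₂ id t (fun a _ => by simp [hδ₂.le]) (fun a _ => htd a)
  refine ⟨fun x => η₂ (η₁ (h x)), fun x y hxy => m2 (m1 (hm hxy)), ?_, ?_, ?_, V, hVo, hKV,
    (A.image t), ?_, ?_⟩
  · intro x y hxy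
    have a1 := hl x y hxy
    have a2 := l1 _ _ (hm hxy)
    have a3 := l2 _ _ (m1 (hm hxy))
    have a4 : 0 ≤ y - x := sub_nonneg.2 hxy
    have a5 : (1 + e) * (h y - h x) ≤ (1 + e) * (y - x) :=
      mul_le_mul_of_nonneg_left a1 (by positivity)
    have a6 : (1 + e) * (η₁ (h y) - η₁ (h x)) ≤ (1 + e) * ((1 + e) * (y - x)) :=
      mul_le_mul_of_nonneg_left (a2.trans a5) (by positivity)
    have a7 : (1 + e) * (1 + e) ≤ 1 + ε := by nlinarith
    have a8 : (1 + e) * ((1 + e) * (y - x)) ≤ (1 + ε) * (y - x) := by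
      rw [← mul_assoc]
      exact mul_le_mul_of_nonneg_right a7 a4
    exact a3.trans (a6.trans a8)
  · intro x
    have a1 := hdist x
    have a2 := d1 (h x)
    have a3 := d2 (η₁ (h x))
    have a4 : δ' ≤ e := min_le_right _ _
    have e1 : η₂ (η₁ (h x)) - x = (η₂ (η₁ (h x)) - η₁ (h x)) + (η₁ (h x) - h x) + (h x - x) := by
      ring
    rw [e1]
    refine (abs_add_three _ _ _).trans ?_
    linarith
  · intro d hdD
    have a1 : η₁ (h d) = d := f1 d hdD
    have a2 : η₂ d = t d := f2 d (Finset.mem_union_left _ hdD)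
    simp only
    rw [a1, a2, hteq d (hD d hdD)]
  · intro d hd'
    obtain ⟨a, -, rfl⟩ := Finset.mem_image.1 hd'
    exact htG a
  · intro x hx
    have a1 : η₁ (h x) ∈ A := by
      refine Finset.mem_union_right _ (Finset.mem_image.2 ⟨h x, ?_, rfl⟩)
      exact hVfin.mem_toFinset.2 ⟨x, hx, rfl⟩
    have a2 : η₂ (η₁ (h x)) = t (η₁ (h x)) := f2 _ a1
    simp only
    rw [a2]
    exact Finset.mem_image_of_mem _ a1

/-! ### Bi-Lipschitz increasing maps -/

lemma lipschitz_of {h : ℝ → ℝ} (hm : Monotone h) {C : ℝ}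
    (hC : ∀ x y, x ≤ y → h y - h x ≤ C * (y - x)) : LipschitzWith (Real.toNNReal C) h := by
  apply LipschitzWith.of_dist_le_mul
  have key : ∀ x y, x ≤ y → dist (h x) (h y) ≤ (Real.toNNReal C : ℝ) * dist x y := by
    intro x y hxy
    rw [dist_comm, dist_comm x y, Real.dist_eq, Real.dist_eq,
      abs_of_nonneg (sub_nonneg.2 (hm hxy)), abs_of_nonneg (sub_nonneg.2 hxy)]
    exact (hC x y hxy).trans
      (mul_le_mul_of_nonneg_right (Real.le_coe_toNNReal C) (sub_nonneg.2 hxy))
  intro x y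
  rcases le_total x y with h | h
  · exact key x y h
  · rw [dist_comm, dist_comm x y]
    exact key y x h

lemma null_image {h : ℝ → ℝ} (hm : Monotone h) {C : ℝ}
    (hC : ∀ x y, x ≤ y → h y - h x ≤ C * (y - x)) {K : Set ℝ} (h0 : volume K = 0) :
    volume (h '' K) = 0 := by
  have h1 := (lipschitz_of hm hC).hausdorffMeasure_image_le (d := 1) zero_le_one K
  rw [hausdorffMeasure_real, h0, mul_zero] at h1
  exact le_antisymm h1 bot_le

lemma inverse {h : ℝ → ℝ} {c C : ℝ} (hc : 0 < c) (h1 : ∀ x y, x ≤ y → c * (y - x) ≤ h y - h x)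
    (h2 : ∀ x y, x ≤ y → h y - h x ≤ C * (y - x)) :
    ∃ k : ℝ → ℝ, (∀ x, k (h x) = x) ∧ (∀ y, h (k y) = y) ∧ Monotone k ∧
      (∀ x y, x ≤ y → c * (k y - k x) ≤ y - x) ∧ (∀ x y, x ≤ y → y - x ≤ C * (k y - k x)) := by
  have hmono : StrictMono h := by
    intro x y hxy
    have := h1 x y hxy.le
    have : 0 < c * (y - x) := mul_pos hc (sub_pos.2 hxy)
    linarith
  have hcont : Continuous h := (lipschitz_of hmono.monotone h2).continuous
  have htop : Tendsto h atTop atTop := by
    have h3 : Tendsto (fun x : ℝ => c * x + h 0) atTop atTop :=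
      tendsto_atTop_add_const_right _ _ (tendsto_id.const_mul_atTop hc)
    refine tendsto_atTop_mono' _ ?_ h3
    filter_upwards [eventually_ge_atTop (0 : ℝ)] with x hx
    have := h1 0 x hx
    linarith
  have hbot : Tendsto h atBot atBot := by
    have h3 : Tendsto (fun x : ℝ => c * x + h 0) atBot atBot :=
      tendsto_atBot_add_const_right _ _ (tendsto_id.const_mul_atBot hc)
    refine tendsto_atBot_mono' _ ?_ h3
    filter_upwards [eventually_le_atBot (0 : ℝ)] with x hx
    have := h1 x 0 hx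
    linarith
  have hsurj : Function.Surjective h := hcont.surjective htop hbot
  obtain ⟨k, hk1, hk2⟩ := Function.bijective_iff_has_inverse.1 ⟨hmono.injective, hsurj⟩
  have hkm : Monotone k := by
    intro x y hxy
    by_contra hcon
    push Not at hcon
    have := hmono hcon
    rw [hk2, hk2] at this
    linarith
  refine ⟨k, hk1, hk2, hkm, fun x y hxy => ?_, fun x y hxy => ?_⟩
  · have := h1 _ _ (hkm hxy)
    rwa [hk2, hk2] at this
  · have := h2 _ _ (hkm hxy)
    rwa [hk2, hk2] at this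

/-! ### The states -/

/-- `f` is a bi-Lipschitz increasing map, `1`-Lipschitz, and off the compact set `F` it is
one of finitely many translations by elements of `G`. -/
structure State (G : AddSubgroup ℝ) (f : ℝ → ℝ) (F : Set ℝ) : Prop where
  lower : ∃ m > 0, ∀ x y, x ≤ y → m * (y - x) ≤ f y - f x
  upper : ∀ x y, x ≤ y → f y - f x ≤ y - x
  cpt : IsCompact F
  fin : ∃ D : Finset ℝ, (∀ d ∈ D, d ∈ G) ∧ ∀ x ∉ F, x - f x ∈ D

lemma State.mono {G : AddSubgroup ℝ} {f : ℝ → ℝ} {F : Set ℝ} (h : State G f F) : Monotone f := by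
  obtain ⟨m, hm, h1⟩ := h.lower
  intro x y hxy
  have := h1 x y hxy
  have : 0 ≤ m * (y - x) := mul_nonneg hm.le (sub_nonneg.2 hxy)
  linarith

lemma State.phi_mono {G : AddSubgroup ℝ} {f : ℝ → ℝ} {F : Set ℝ} (h : State G f F) :
    Monotone fun x => x - f x := by
  intro x y hxy
  have := h.upper x y hxy
  simp only
  linarith

lemma stepA (G : AddSubgroup ℝ) (hd : Dense (G : Set ℝ)) (K : Set ℝ) (hK : IsCompact K)
    (h0 : volume K = 0) {ε : ℝ} (hε : 0 < ε) {f : ℝ → ℝ} {F : Set ℝ} (h : State G f F) :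
    ∃ (f' : ℝ → ℝ) (F' : Set ℝ), State G f' F' ∧ F' ⊆ F ∧ (∀ x ∉ F, f' x = f x) ∧
      (∀ x, |f' x - f x| ≤ ε) ∧ Disjoint F' K := by
  obtain ⟨m, hm, hlow⟩ := h.lower
  obtain ⟨D, hD, hDF⟩ := h.fin
  have hm1 : m ≤ 1 := by
    have h1 := hlow 0 1 zero_le_one
    have h2 := h.upper 0 1 zero_le_one
    linarith
  set φ : ℝ → ℝ := fun x => x - f x with hφ
  have hφm : Monotone φ := h.phi_mono
  have hφl : ∀ x y, x ≤ y → φ y - φ x ≤ (1 - m) * (y - x) := by
    intro x y hxy
    have := hlow x y hxy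
    simp only [hφ]
    linarith
  have hφc : Continuous φ := (lipschitz_of hφm hφl).continuous
  set e : ℝ := min ε (m / 2) with he
  have he0 : 0 < e := lt_min hε (half_pos hm)
  have he1 : e ≤ ε := min_le_left _ _
  have he2 : e ≤ m / 2 := min_le_right _ _
  obtain ⟨η, em, el, ed, efix, V, hVo, hKV, D', hD'G, hD'⟩ :=
    eta G hd (φ '' K) (hK.image hφc) (null_image hφm hφl h0) D hD he0
  refine ⟨fun x => x - η (φ x), F \ φ ⁻¹' V, ?_, sdiff_subset, ?_, ?_, ?_⟩
  · refine ⟨⟨m / 2, half_pos hm, fun x y hxy => ?_⟩, fun x y hxy => ?_, ?_, ?_⟩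
    · have a1 := el _ _ (hφm hxy)
      have a2 := hφl x y hxy
      have a3 : (1 + e) * (φ y - φ x) ≤ (1 + e) * ((1 - m) * (y - x)) :=
        mul_le_mul_of_nonneg_left a2 (by positivity)
      have a4 : (1 + e) * (1 - m) ≤ 1 - m / 2 := by nlinarith
      have a5 : (1 + e) * ((1 - m) * (y - x)) ≤ (1 - m / 2) * (y - x) := by
        rw [← mul_assoc]
        exact mul_le_mul_of_nonneg_right a4 (sub_nonneg.2 hxy)
      linarith
    · have a1 := em (hφm hxy)
      linarith
    · exact h.cpt.diff (hVo.preimage hφc)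
    · refine ⟨D ∪ D', fun d hd' => ?_, fun x hx => ?_⟩
      · rcases Finset.mem_union.1 hd' with h1 | h1
        · exact hD d h1
        · exact hD'G d h1
      · simp only [sub_sub_cancel]
        by_cases hxF : x ∈ F
        · have h1 : φ x ∈ V := by
            by_contra hcon
            exact hx ⟨hxF, hcon⟩
          exact Finset.mem_union_right _ (hD' _ h1)
        · rw [efix _ (hDF x hxF)]
          exact Finset.mem_union_left _ (hDF x hxF)
  · intro x hx
    simp only
    rw [efix _ (hDF x hx)]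
    simp
  · intro x
    have e1 : x - η (φ x) - f x = -(η (φ x) - φ x) := by simp only [hφ]; ring
    simp only
    rw [e1, abs_neg]
    exact (ed _).trans he1
  · rw [Set.disjoint_left]
    rintro x ⟨-, hx⟩ hxK
    exact hx (hKV ⟨x, hxK, rfl⟩)

lemma stepB (G : AddSubgroup ℝ) (hd : Dense (G : Set ℝ)) (K : Set ℝ) (hK : IsCompact K)
    (h0 : volume K = 0) {ε : ℝ} (hε : 0 < ε) {f : ℝ → ℝ} {F : Set ℝ} (h : State G f F) :
    ∃ (f' : ℝ → ℝ) (F' : Set ℝ), State G f' F' ∧ F' ⊆ F ∧ (∀ x ∉ F, f' x = f x) ∧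
      (∀ x, |f' x - f x| ≤ ε) ∧ Disjoint (f' '' F') K := by
  obtain ⟨m, hm, hlow⟩ := h.lower
  obtain ⟨D, hD, hDF⟩ := h.fin
  have hup : ∀ x y, x ≤ y → f y - f x ≤ 1 * (y - x) := fun x y hxy => by
    rw [one_mul]; exact h.upper x y hxy
  have hfc : Continuous f := (lipschitz_of h.mono hup).continuous
  obtain ⟨g, hgf, hfg, hgm, hg1, hg2⟩ := inverse hm hlow hup
  set ψ : ℝ → ℝ := fun y => g y - y with hψ
  have hψm : Monotone ψ := by
    intro x y hxy
    have := hg2 x y hxy
    simp only [hψ]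
    linarith
  have hψl : ∀ x y, x ≤ y → ψ y - ψ x ≤ (1 / m) * (y - x) := by
    intro x y hxy
    have h1 := hg1 x y hxy
    have h2 : g y - g x ≤ (1 / m) * (y - x) := by
      rw [one_div, inv_mul_eq_div, le_div_iff₀ hm]
      linarith
    simp only [hψ]
    linarith
  have hψc : Continuous ψ := (lipschitz_of hψm hψl).continuous
  have hψD : ∀ y ∉ f '' F, ψ y ∈ D := by
    intro y hy
    have h1 : g y ∉ F := fun h => hy ⟨g y, h, hfg y⟩
    have h2 := hDF _ h1
    rwa [hfg] at h2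
  obtain ⟨η, em, el, ed, efix, V, hVo, hKV, D', hD'G, hD'⟩ :=
    eta G hd (ψ '' K) (hK.image hψc) (null_image hψm hψl h0) D hD hε
  set g' : ℝ → ℝ := fun y => y + η (ψ y) with hg'
  have g'1 : ∀ x y, x ≤ y → 1 * (y - x) ≤ g' y - g' x := by
    intro x y hxy
    have := em (hψm hxy)
    simp only [hg']
    linarith
  set C : ℝ := 1 + (1 + ε) * (1 / m) with hC
  have hC0 : 0 < C := by positivity
  have g'2 : ∀ x y, x ≤ y → g' y - g' x ≤ C * (y - x) := by
    intro x y hxy
    have a1 := el _ _ (hψm hxy)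
    have a2 := mul_le_mul_of_nonneg_left (hψl x y hxy) (by positivity : (0 : ℝ) ≤ 1 + ε)
    simp only [hg', hC]
    have e1 : (1 + (1 + ε) * (1 / m)) * (y - x) = (y - x) + (1 + ε) * (1 / m * (y - x)) := by ring
    rw [e1]
    linarith
  obtain ⟨f', hf'g', hg'f', hf'm, hf'1, hf'2⟩ := inverse one_pos g'1 g'2
  have hg'c : Continuous g' := by
    have : Monotone g' := by
      intro x y hxy
      have := g'1 x y hxy
      have := sub_nonneg.2 hxy
      linarith
    exact (lipschitz_of this g'2).continuous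
  -- `g'` agrees with `g` off `f '' F`
  have hgg : ∀ y ∉ f '' F, g' y = g y := by
    intro y hy
    simp only [hg']
    rw [efix _ (hψD y hy)]
    simp [hψ]
  have hff : ∀ x ∉ F, f' x = f x := by
    intro x hx
    have h1 : f x ∉ f '' F := by
      rintro ⟨z, hz, hzx⟩
      have : z = x := by rw [← hgf z, hzx, hgf]
      exact hx (this ▸ hz)
    have h2 := hgg _ h1
    rw [hgf] at h2
    rw [← h2, hf'g', h2]
  refine ⟨f', g' '' (f '' F \ ψ ⁻¹' V), ?_, ?_, hff, ?_, ?_⟩
  · refine ⟨⟨1 / C, by positivity, fun x y hxy => ?_⟩, fun x y hxy => ?_, ?_, ?_⟩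
    · have := hf'2 x y hxy
      rw [one_div, inv_mul_eq_div, div_le_iff₀ hC0]
      linarith
    · have := hf'1 x y hxy
      linarith
    · exact ((h.cpt.image hfc).diff (hVo.preimage hψc)).image hg'c
    · refine ⟨D ∪ D', fun d hd' => ?_, fun x hx => ?_⟩
      · rcases Finset.mem_union.1 hd' with h1 | h1
        · exact hD d h1
        · exact hD'G d h1
      · have e1 : x - f' x = η (ψ (f' x)) := by
          have := hg'f' x
          simp only [hg'] at this
          linarith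
        rw [e1]
        by_cases h1 : f' x ∈ f '' F
        · have h2 : ψ (f' x) ∈ V := by
            by_contra hcon
            exact hx ⟨f' x, ⟨h1, hcon⟩, hg'f' x⟩
          exact Finset.mem_union_right _ (hD' _ h2)
        · rw [efix _ (hψD _ h1)]
          exact Finset.mem_union_left _ (hψD _ h1)
  · rintro _ ⟨y, ⟨hy, -⟩, rfl⟩
    by_contra hcon
    have h1 := hff _ hcon
    rw [hf'g'] at h1
    obtain ⟨z, hz, rfl⟩ := hy
    have : z = g' (f z) := by rw [← hgf z, h1, hgf, ← h1]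
    exact hcon (this ▸ hz)
  · intro x
    have h1 := ed (ψ (f' x))
    have h2 : g' (f' x) = x := hg'f' x
    have h3 : |x - g (f' x)| ≤ ε := by
      have e1 : x - g (f' x) = η (ψ (f' x)) - ψ (f' x) := by
        simp only [hg'] at h2
        simp only [hψ]
        simp only [hψ] at h2
        linarith
      rw [e1]
      exact h1
    have h4 : |f' x - f x| ≤ |x - g (f' x)| := by
      have h5 := (lipschitz_of h.mono hup).dist_le_mul (g (f' x)) x
      rw [hfg, Real.toNNReal_one, NNReal.coe_one, one_mul, Real.dist_eq, Real.dist_eq,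
        abs_sub_comm (g (f' x)) x] at h5
      exact h5
    exact h4.trans h3
  · rw [Set.disjoint_left]
    rintro _ ⟨_, ⟨y, ⟨-, hy⟩, rfl⟩, rfl⟩ hyK
    rw [hf'g'] at hyK
    exact hy (hKV ⟨y, hyK, rfl⟩)

lemma step (G : AddSubgroup ℝ) (hd : Dense (G : Set ℝ)) (K : Set ℝ) (hK : IsCompact K)
    (h0 : volume K = 0) {ε : ℝ} (hε : 0 < ε) {f : ℝ → ℝ} {F : Set ℝ} (h : State G f F) :
    ∃ (f' : ℝ → ℝ) (F' : Set ℝ), State G f' F' ∧ F' ⊆ F ∧ (∀ x ∉ F, f' x = f x) ∧
      (∀ x, |f' x - f x| ≤ ε) ∧ Disjoint F' K ∧ Disjoint (f' '' F') K := by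
  obtain ⟨f₁, F₁, s1, a1, b1, c1, d1⟩ := stepA G hd K hK h0 (half_pos hε) h
  obtain ⟨f₂, F₂, s2, a2, b2, c2, d2⟩ := stepB G hd K hK h0 (half_pos hε) s1
  refine ⟨f₂, F₂, s2, a2.trans a1, fun x hx => ?_, fun x => ?_, d1.mono_left a2, d2⟩
  · rw [b2 x fun h => hx (a1 h), b1 x hx]
  · have e : f₂ x - f x = (f₂ x - f₁ x) + (f₁ x - f x) := by ring
    rw [e]
    refine (abs_add_le _ _).trans ?_
    have := c1 x
    have := c2 x
    linarith

lemma State.surj {G : AddSubgroup ℝ} {f : ℝ → ℝ} {F : Set ℝ} (h : State G f F) :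
    Function.Surjective f ∧ Function.Injective f ∧ Continuous f := by
  obtain ⟨m, hm, hlow⟩ := h.lower
  have hup : ∀ x y, x ≤ y → f y - f x ≤ 1 * (y - x) := fun x y hxy => by
    rw [one_mul]; exact h.upper x y hxy
  obtain ⟨g, hgf, hfg, -, -, -⟩ := inverse hm hlow hup
  exact ⟨fun y => ⟨g y, hfg y⟩, fun x y hxy => by rw [← hgf x, hxy, hgf],
    (lipschitz_of h.mono hup).continuous⟩

/-- the starting state -/
lemma start (G : AddSubgroup ℝ) {d : ℝ} (hd : d ∈ G) (hd0 : 0 < d) :
    State G (fun x => x - max 0 (min d (x / 2))) (Icc 0 (2 * d)) := by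
  have hkey : ∀ x y : ℝ, x ≤ y → 0 ≤ max 0 (min d (y / 2)) - max 0 (min d (x / 2)) ∧
      max 0 (min d (y / 2)) - max 0 (min d (x / 2)) ≤ (y - x) / 2 := by
    intro x y hxy
    constructor
    · have h1 : min d (x / 2) ≤ min d (y / 2) := min_le_min_left _ (by linarith)
      have h2 : max 0 (min d (x / 2)) ≤ max 0 (min d (y / 2)) := max_le_max_left _ h1
      linarith
    · rcases le_total (min d (y / 2)) 0 with h1 | h1
      · rw [max_eq_left h1]
        have := le_max_left 0 (min d (x / 2))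
        linarith
      · rw [max_eq_right h1]
        have h2 := le_max_right 0 (min d (x / 2))
        rcases le_total d (x / 2) with h3 | h3
        · have h5 := (le_min le_rfl h3).trans h2
          have h4 := min_le_left d (y / 2)
          linarith
        · have h5 := (le_min h3 le_rfl).trans h2
          have h4 := min_le_right d (y / 2)
          linarith
  refine ⟨⟨1 / 2, by norm_num, fun x y hxy => ?_⟩, fun x y hxy => ?_, isCompact_Icc,
    {0, d}, ?_, fun x hx => ?_⟩
  · have := hkey x y hxy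
    linarith
  · have := hkey x y hxy
    linarith
  · intro e he
    rcases Finset.mem_insert.1 he with rfl | he
    · exact zero_mem G
    · rw [Finset.mem_singleton.1 he]
      exact hd
  · simp only [sub_sub_cancel]
    rw [Finset.mem_insert, Finset.mem_singleton]
    rcases lt_or_ge x 0 with h1 | h1
    · left
      have : min d (x / 2) ≤ 0 := (min_le_right _ _).trans (by linarith)
      exact max_eq_left this
    · right
      have h2 : 2 * d < x := by
        by_contra hcon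
        exact hx ⟨h1, not_lt.1 hcon⟩
      rw [min_eq_left (by linarith), max_eq_right hd0.le]

theorem core (G : AddSubgroup ℝ) (hd : Dense (G : Set ℝ)) (K : ℕ → Set ℝ)
    (hK : ∀ n, IsCompact (K n)) (h0 : ∀ n, volume (K n) = 0) (hGK : (G : Set ℝ) ⊆ ⋃ n, K n) :
    ∃ f : ℝ → ℝ, Monotone f ∧ (∀ x y, x ≤ y → f y - f x ≤ y - x) ∧ BijOn f G G ∧
      ∃ x ∈ G, ∃ y ∈ G, x < y ∧ f y - f x < y - x := by
  obtain ⟨d, hdG, hd0⟩ : ∃ d ∈ G, 0 < d := by
    obtain ⟨d, hd1, hd2⟩ := hd.exists_mem_open (isOpen_Ioi (a := (0 : ℝ)))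
      ⟨1, mem_Ioi.2 one_pos⟩
    exact ⟨d, hd1, hd2⟩
  -- the sequence of states
  let S : Type := {p : (ℝ → ℝ) × Set ℝ // State G p.1 p.2}
  have hstep : ∀ (n : ℕ) (p : S), ∃ q : S, q.1.2 ⊆ p.1.2 ∧ (∀ x ∉ p.1.2, q.1.1 x = p.1.1 x) ∧
      (∀ x, |q.1.1 x - p.1.1 x| ≤ 1 / 2 / 2 ^ n) ∧ Disjoint q.1.2 (K n) ∧
      Disjoint (q.1.1 '' q.1.2) (K n) := by
    rintro n ⟨⟨f, F⟩, h⟩
    obtain ⟨f', F', s, h1⟩ := step G hd (K n) (hK n) (h0 n)
      (by positivity : (0 : ℝ) < 1 / 2 / 2 ^ n) h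
    exact ⟨⟨(f', F'), s⟩, h1⟩
  choose next hn1 hn2 hn3 hn4 hn5 using hstep
  let s0 : S := ⟨(_, _), start G hdG hd0⟩
  let s : ℕ → S := fun n => Nat.rec s0 (fun n p => next n p) n
  have hs0 : s 0 = s0 := rfl
  have hss : ∀ n, s (n + 1) = next n (s n) := fun n => rfl
  set f : ℕ → ℝ → ℝ := fun n => (s n).1.1 with hf
  set F : ℕ → Set ℝ := fun n => (s n).1.2 with hF
  have hst : ∀ n, State G (f n) (F n) := fun n => (s n).2
  have g1 : ∀ n, F (n + 1) ⊆ F n := fun n => by
    simp only [hF, hss]; exact hn1 n (s n)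
  have g2 : ∀ n, ∀ x ∉ F n, f (n + 1) x = f n x := fun n x hx => by
    simp only [hf, hss]; exact hn2 n (s n) x hx
  have g3 : ∀ n x, |f (n + 1) x - f n x| ≤ 1 / 2 / 2 ^ n := fun n x => by
    simp only [hf, hss]; exact hn3 n (s n) x
  have g4 : ∀ n, Disjoint (F (n + 1)) (K n) := fun n => by
    simp only [hF, hss]; exact hn4 n (s n)
  have g5 : ∀ n, Disjoint (f (n + 1) '' F (n + 1)) (K n) := fun n => by
    simp only [hF, hf, hss]; exact hn5 n (s n)
  have hFanti : Antitone F := antitone_nat_of_succ_le g1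
  have hstab : ∀ n m, n ≤ m → ∀ x ∉ F n, f m x = f n x := by
    intro n m hnm
    induction m, hnm using Nat.le_induction with
    | base => intro x _; rfl
    | succ m hm ih =>
      intro x hx
      rw [g2 m x fun h => hx (hFanti hm h), ih x hx]
  -- the limit
  have hcau : ∀ x, CauchySeq fun n => f n x := by
    intro x
    refine cauchySeq_of_le_geometric_two (C := 1) fun n => ?_
    rw [dist_comm, Real.dist_eq]
    exact g3 n x
  choose φ hφ using fun x => cauchySeq_tendsto_of_complete (hcau x)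
  have hmono : Monotone φ := fun x y hxy =>
    le_of_tendsto_of_tendsto' (hφ x) (hφ y) fun n => (hst n).mono hxy
  have hup : ∀ x y, x ≤ y → φ y - φ x ≤ y - x := fun x y hxy =>
    le_of_tendsto' ((hφ y).sub (hφ x)) fun n => (hst n).upper x y hxy
  have hlim : ∀ n, ∀ x ∉ F n, φ x = f n x := by
    intro n x hx
    refine tendsto_nhds_unique (hφ x) ?_
    refine tendsto_const_nhds.congr' ?_
    filter_upwards [eventually_ge_atTop n] with m hm
    exact (hstab n m hm x hx).symm
  have hup' : ∀ x y, x ≤ y → φ y - φ x ≤ 1 * (y - x) := fun x y hxy => by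
    rw [one_mul]; exact hup x y hxy
  have hcont : Continuous φ := (lipschitz_of hmono hup').continuous
  have hF0 : F 0 = Icc 0 (2 * d) := rfl
  have hf0 : f 0 = fun x => x - max 0 (min d (x / 2)) := rfl
  have hlow : ∀ x < 0, φ x = x := by
    intro x hx
    rw [hlim 0 x (by rw [hF0]; exact fun h => absurd h.1 (not_le.2 hx)), hf0]
    simp only
    rw [max_eq_left ((min_le_right _ _).trans (by linarith)), sub_zero]
  have hhigh : ∀ x > 2 * d, φ x = x - d := by
    intro x hx
    rw [hlim 0 x (by rw [hF0]; exact fun h => absurd h.2 (not_le.2 hx)), hf0]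
    simp only
    rw [min_eq_left (by linarith), max_eq_right hd0.le]
  have hsurj : Function.Surjective φ := by
    apply hcont.surjective
    · have h3 : Tendsto (fun x : ℝ => x - d) atTop atTop :=
        tendsto_atTop_add_const_right _ _ tendsto_id
      refine h3.congr' ?_
      filter_upwards [eventually_gt_atTop (2 * d)] with x hx
      exact (hhigh x hx).symm
    · have h3 : Tendsto (fun x : ℝ => x) atBot atBot := tendsto_id
      refine h3.congr' ?_
      filter_upwards [eventually_lt_atBot (0 : ℝ)] with x hx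
      exact (hlow x hx).symm
  -- the images of the sets `F n`
  have himg : ∀ n, f (n + 1) '' F (n + 1) ⊆ f n '' F n := by
    rintro n _ ⟨x, hx, rfl⟩
    obtain ⟨z, hz⟩ := (hst n).surj.1 (f (n + 1) x)
    by_cases hzF : z ∈ F n
    · exact ⟨z, hzF, hz⟩
    · exfalso
      have h1 := g2 n z hzF
      rw [hz] at h1
      have h2 := (hst (n + 1)).surj.2.1 h1
      rw [h2] at hzF
      exact hzF (g1 n hx)
  have himg' : Antitone fun n => f n '' F n := antitone_nat_of_succ_le himg
  have hlimF : ∀ x, (∀ n, x ∈ F n) → ∀ n, φ x ∈ f n '' F n := by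
    intro x hx n
    have hcl : IsClosed (f n '' F n) := ((hst n).cpt.image (hst n).surj.2.2).isClosed
    refine hcl.mem_of_tendsto (hφ x) ?_
    filter_upwards [eventually_ge_atTop n] with m hm
    exact himg' hm ⟨x, hx m, rfl⟩
  have hGF : ∀ x ∈ G, ∃ n, x ∉ F n := by
    intro x hx
    obtain ⟨n, hn⟩ := mem_iUnion.1 (hGK hx)
    exact ⟨n + 1, fun h => Set.disjoint_left.1 (g4 n) h hn⟩
  have hoff : ∀ n, ∀ x ∉ F n, x - φ x ∈ G := by
    intro n x hx
    obtain ⟨D, hD, hDF⟩ := (hst n).fin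
    rw [hlim n x hx]
    exact hD _ (hDF x hx)
  refine ⟨φ, hmono, hup, ⟨?_, ?_, ?_⟩, ?_⟩
  · intro x hx
    obtain ⟨n, hn⟩ := hGF x hx
    have h1 := G.sub_mem hx (hoff n x hn)
    rwa [sub_sub_cancel] at h1
  · -- injective on `G`
    have key : ∀ x ∈ G, ∀ y ∈ G, x < y → φ x ≠ φ y := by
      intro x hx y hy hxy heq
      obtain ⟨n, hn⟩ := hGF x hx
      have hop : IsOpen (F n)ᶜ := (hst n).cpt.isClosed.isOpen_compl
      obtain ⟨r, hr, hrF⟩ := Metric.isOpen_iff.1 hop x hn
      set z := min (x + r / 2) y with hz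
      have hxz : x < z := lt_min (by linarith) hxy
      have hzy : z ≤ y := min_le_right _ _
      have hzF : z ∉ F n := by
        apply hrF
        rw [Metric.mem_ball, Real.dist_eq, abs_of_pos (by linarith)]
        have : z ≤ x + r / 2 := min_le_left _ _
        linarith
      have h1 : φ x ≤ φ z := hmono hxz.le
      have h2 : φ z ≤ φ y := hmono hzy
      have h3 : φ z = φ x := le_antisymm (h2.trans heq.symm.le) h1
      rw [hlim n x hn, hlim n z hzF] at h3
      exact hxz.ne' ((hst n).surj.2.1 h3)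
    intro x hx y hy hxy
    rcases lt_trichotomy x y with h | h | h
    · exact absurd hxy (key x hx y hy h)
    · exact h
    · exact absurd hxy.symm (key y hy x hx h)
  · -- surjective onto `G`
    intro y hy
    obtain ⟨x, rfl⟩ := hsurj y
    obtain ⟨n, hn⟩ := mem_iUnion.1 (hGK hy)
    have h1 : ∃ m, x ∉ F m := by
      by_contra hcon
      push Not at hcon
      exact Set.disjoint_left.1 (g5 n) (hlimF x hcon (n + 1)) hn
    obtain ⟨m, hm⟩ := h1
    have h2 := G.add_mem (hoff m x hm) hy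
    rw [sub_add_cancel] at h2
    exact ⟨x, h2, rfl⟩
  · refine ⟨-d, neg_mem hdG, d + d + d, add_mem (add_mem hdG hdG) hdG, by linarith, ?_⟩
    rw [hlow (-d) (by linarith), hhigh (d + d + d) (by linarith)]
    linarith

end Pool.Agent.X216.EPlastic
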