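import Pool.Agent.X216.EPlastic
import Pool.Agent.H566W.Ana

/-!
# Analytic subgroups of the line: an analytic proper subgroup is covered by countably many
compact null sets (Laczkovich), and hence, if dense, is not plastic
-/

open Set MeasureTheory Filter Topology
open scoped Pointwise

namespace Pool.Agent.X216.EPlastic

/-! ### Steinhaus for two sets -/

lemma exists_translate {A B : Set ℝ} (hA : MeasurableSet A) (hB : MeasurableSet B)
    (hA0 : volume A ≠ 0) (hB0 : volume B ≠ 0) :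
    ∃ t : ℝ, volume (A ∩ {x | x - t ∈ B}) ≠ 0 := by
  by_contra hcon
  push Not at hcon
  have h1 : ∫⁻ t : ℝ, ∫⁻ x : ℝ, A.indicator 1 x * B.indicator 1 (x - t) = 0 := by
    have : ∀ t : ℝ, ∫⁻ x : ℝ, A.indicator (1 : ℝ → ENNReal) x * B.indicator 1 (x - t) = 0 := by
      intro t
      have hm : MeasurableSet (A ∩ {x | x - t ∈ B}) :=
        hA.inter ((measurable_id.sub_const t) hB)
      have e : (fun x : ℝ => A.indicator (1 : ℝ → ENNReal) x * B.indicator 1 (x - t))
          = (A ∩ {x | x - t ∈ B}).indicator 1 := by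
        funext x
        by_cases hx : x ∈ A <;> by_cases hx' : x - t ∈ B <;> simp [indicator, hx, hx']
      rw [e, lintegral_indicator_one hm, hcon t]
    simp [this]
  rw [lintegral_lintegral_swap] at h1
  · have h2 : ∀ x : ℝ, ∫⁻ t : ℝ, A.indicator (1 : ℝ → ENNReal) x * B.indicator 1 (x - t)
        = A.indicator 1 x * volume B := by
      intro x
      rw [lintegral_const_mul']
      · rw [lintegral_sub_left_eq_self (fun y => B.indicator (1 : ℝ → ENNReal) y) x,
          lintegral_indicator_one hB]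
      · by_cases hx : x ∈ A <;> simp [indicator, hx]
    simp only [h2] at h1
    rw [lintegral_mul_const _ (measurable_one.indicator hA), lintegral_indicator_one hA] at h1
    rcases mul_eq_zero.1 h1 with h | h
    · exact hA0 h
    · exact hB0 h
  · apply Measurable.aemeasurable
    apply Measurable.mul
    · exact (measurable_one.indicator hA).comp measurable_snd
    · exact (measurable_one.indicator hB).comp (measurable_snd.sub measurable_fst)

lemma steinhaus_two {A B : Set ℝ} (hA : MeasurableSet A) (hB : MeasurableSet B)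
    (hA0 : volume A ≠ 0) (hB0 : volume B ≠ 0) : (interior (A - B)).Nonempty := by
  obtain ⟨t, ht⟩ := exists_translate hA hB hA0 hB0
  have hm : MeasurableSet (A ∩ {x | x - t ∈ B}) := hA.inter ((measurable_id.sub_const t) hB)
  have h1 := Measure.sub_mem_nhds_zero_of_addHaar_pos volume _ hm (pos_iff_ne_zero.2 ht)
  refine ⟨t, mem_interior_iff_mem_nhds.2 ?_⟩
  have h2 : (fun x : ℝ => x - t) ⁻¹' ((A ∩ {x | x - t ∈ B}) - (A ∩ {x | x - t ∈ B})) ∈ 𝓝 t := by
    apply (continuous_id.sub continuous_const).continuousAt.preimage_mem_nhds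
    simpa using h1
  refine Filter.mem_of_superset h2 ?_
  rintro x hx
  obtain ⟨a, ha, b, hb, hab⟩ := mem_sub.1 hx
  refine mem_sub.2 ⟨a, ha.1, b - t, hb.2, ?_⟩
  simp only at hab
  linarith

/-! ### Proper analytic subgroups -/

/-- a subgroup containing an interval around `0` is everything -/
lemma eq_top_of_nhds (H : AddSubgroup ℝ) (h : (H : Set ℝ) ∈ 𝓝 0) : H = ⊤ := by
  obtain ⟨r, hr, hrH⟩ := Metric.mem_nhds_iff.1 h
  rw [eq_top_iff]
  intro x _
  obtain ⟨n, hn⟩ := exists_nat_gt (|x| / r)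
  have hn0 : 0 < (n : ℝ) := lt_of_le_of_lt (by positivity) hn
  have h1 : x / n ∈ H := by
    apply hrH
    rw [Metric.mem_ball, dist_zero_right, Real.norm_eq_abs, abs_div, abs_of_pos hn0,
      div_lt_iff₀ hn0]
    rw [div_lt_iff₀ hr] at hn
    linarith
  have h2 := H.nsmul_mem h1 n
  rwa [nsmul_eq_mul, mul_div_cancel₀ _ hn0.ne'] at h2

lemma meagre_of_ne_top (H : AddSubgroup ℝ) (φ : (ℕ → ℕ) → ℝ) (hφ : Continuous φ)
    (hr : range φ = (H : Set ℝ)) (htop : H ≠ ⊤) : IsMeagre (H : Set ℝ) := by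
  by_contra hne
  apply htop
  have h1 := Pool.Agent.H566W.sdiff_Dn (H : Set ℝ)
  have h2 := Pool.Agent.H566W.analytic_bp hφ
  rw [hr] at h2
  have h3 : ¬ IsMeagre (Pool.Agent.H566W.Dn (H : Set ℝ)) := by
    intro h
    apply hne
    refine (h1.union h).mono ?_
    intro x hx
    by_cases hx' : x ∈ Pool.Agent.H566W.Dn (H : Set ℝ)
    · exact Or.inr hx'
    · exact Or.inl ⟨hx, hx'⟩
  have h4 : (interior (Pool.Agent.H566W.Dn (H : Set ℝ))).Nonempty := by
    by_contra hcon
    apply h3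
    apply IsNowhereDense.isMeagre
    rw [IsNowhereDense, (Pool.Agent.H566W.Dn_closed _).closure_eq]
    exact Set.not_nonempty_iff_eq_empty.1 hcon
  obtain ⟨x, hx⟩ := h4
  obtain ⟨r, hr0, hrU⟩ := Metric.isOpen_iff.1 isOpen_interior x hx
  have h5 : IsMeagre (Metric.ball x r \ (H : Set ℝ)) := by
    refine h2.mono ?_
    rintro y ⟨hy, hyH⟩
    exact ⟨interior_subset (hrU hy), hyH⟩
  apply eq_top_of_nhds
  refine Metric.mem_nhds_iff.2 ⟨r, hr0, fun t ht => ?_⟩
  rw [Metric.mem_ball, dist_zero_right, Real.norm_eq_abs] at ht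
  -- the translate
  have h6 : IsMeagre ((fun y => y + t) ⁻¹' (Metric.ball x r \ (H : Set ℝ))) :=
    h5.preimage_of_isOpenMap (continuous_id.add continuous_const) (Homeomorph.addRight t).isOpenMap
  set W : Set ℝ := Metric.ball x r ∩ (fun y => y + t) ⁻¹' (Metric.ball x r) with hW
  have hWo : IsOpen W := Metric.isOpen_ball.inter
    (Metric.isOpen_ball.preimage (continuous_id.add continuous_const))
  have hWn : W.Nonempty := by
    refine ⟨x - t / 2, ?_, ?_⟩
    · rw [Metric.mem_ball, Real.dist_eq]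
      have e : x - t / 2 - x = -(t / 2) := by ring
      rw [e, abs_neg, abs_div, abs_two]
      have := abs_nonneg t
      linarith
    · simp only [mem_preimage]
      rw [Metric.mem_ball, Real.dist_eq]
      have e : x - t / 2 + t - x = t / 2 := by ring
      rw [e, abs_div, abs_two]
      have := abs_nonneg t
      linarith
  have h7 : ¬ IsMeagre W := not_isMeagre_of_isOpen hWo hWn
  have h8 : ∃ y ∈ W, y ∈ H ∧ y + t ∈ H := by
    by_contra hcon
    push Not at hcon
    apply h7
    refine (h5.union h6).mono ?_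
    intro y hy
    by_cases hyH : y ∈ H
    · exact Or.inr ⟨hy.2, hcon y hy hyH⟩
    · exact Or.inl ⟨hy.1, hyH⟩
  obtain ⟨y, -, hy1, hy2⟩ := h8
  have := H.sub_mem hy2 hy1
  rwa [add_sub_cancel_left] at this

/-- covered by countably many compact null sets -/
def SE (S : Set ℝ) : Prop :=
  ∃ K : ℕ → Set ℝ, (∀ n, IsCompact (K n)) ∧ (∀ n, volume (K n) = 0) ∧ S ⊆ ⋃ n, K n

lemma SE.mono {S T : Set ℝ} (h : SE T) (hST : S ⊆ T) : SE S := by
  obtain ⟨K, h1, h2, h3⟩ := h
  exact ⟨K, h1, h2, hST.trans h3⟩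

lemma SE.iUnion {S : ℕ → Set ℝ} (h : ∀ n, SE (S n)) : SE (⋃ n, S n) := by
  choose K h1 h2 h3 using h
  refine ⟨fun m => K (Nat.unpair m).1 (Nat.unpair m).2, fun m => h1 _ _, fun m => h2 _ _, ?_⟩
  refine iUnion_subset fun n x hx => ?_
  obtain ⟨k, hk⟩ := mem_iUnion.1 (h3 n hx)
  exact mem_iUnion.2 ⟨Nat.pair n k, by simpa using hk⟩

lemma SE.empty : SE ∅ := ⟨fun _ => ∅, fun _ => isCompact_empty, fun _ => measure_empty,
  empty_subset _⟩

lemma SE.biUnion {ι : Type} {s : Set ι} (hs : s.Countable) {S : ι → Set ℝ}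
    (h : ∀ i ∈ s, SE (S i)) : SE (⋃ i ∈ s, S i) := by
  rcases s.eq_empty_or_nonempty with rfl | hne
  · simpa using SE.empty
  · obtain ⟨f, hf⟩ := hs.exists_eq_range hne
    have h1 : SE (⋃ n, S (f n)) := SE.iUnion fun n => h _ (by rw [hf]; exact ⟨n, rfl⟩)
    refine h1.mono (iUnion₂_subset fun i hi => ?_)
    rw [hf] at hi
    obtain ⟨n, rfl⟩ := hi
    exact subset_iUnion (fun n => S (f n)) n

lemma SE.of_closed {C : Set ℝ} (hC : IsClosed C) (h0 : volume C = 0) : SE C := by
  refine ⟨fun n => C ∩ Metric.closedBall 0 n, fun n =>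
    (isCompact_closedBall _ _).inter_left hC, fun n =>
    measure_mono_null inter_subset_left h0, fun x hx => ?_⟩
  obtain ⟨n, hn⟩ := exists_nat_ge |x|
  refine mem_iUnion.2 ⟨n, hx, ?_⟩
  rw [Metric.mem_closedBall, dist_zero_right, Real.norm_eq_abs]
  exact hn

/-- A proper analytic subgroup of the line is covered by countably many compact null sets. -/
theorem SE_of_analytic (H : AddSubgroup ℝ) (hH : AnalyticSet (H : Set ℝ)) (htop : H ≠ ⊤) :
    SE (H : Set ℝ) := by
  rw [AnalyticSet] at hH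
  rcases hH with h | ⟨φ, hφ, hr⟩
  · rw [h]; exact SE.empty
  have hme := meagre_of_ne_top H φ hφ hr htop
  by_contra hcon
  -- the kernel
  set W : Set (ℕ → ℕ) := ⋃ O ∈ {O ∈ TopologicalSpace.countableBasis (ℕ → ℕ) | SE (φ '' O)}, O
    with hW
  have hWo : IsOpen W := isOpen_biUnion fun O hO =>
    (TopologicalSpace.isBasis_countableBasis _).isOpen hO.1
  have hWS : SE (φ '' W) := by
    rw [hW, image_iUnion₂]
    exact SE.biUnion ((TopologicalSpace.countable_countableBasis _).mono (sep_subset _ _))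
      fun O hO => hO.2
  set F : Set (ℕ → ℕ) := Wᶜ with hF
  have hFc : IsClosed F := hWo.isClosed_compl
  have hport : ∀ O : Set (ℕ → ℕ), IsOpen O → (O ∩ F).Nonempty → ¬ SE (φ '' (O ∩ F)) := by
    rintro O hO ⟨x, hxO, hxF⟩ hS
    obtain ⟨B, hB, hxB, hBO⟩ :=
      (TopologicalSpace.isBasis_countableBasis (ℕ → ℕ)).exists_subset_of_mem_open hxO hO
    apply hxF
    refine mem_iUnion₂.2 ⟨B, ⟨hB, ?_⟩, hxB⟩
    have h1 : SE (⋃ n : ℕ, if n = 0 then φ '' (O ∩ F) else φ '' W) := by
      apply SE.iUnion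
      intro n
      split_ifs
      · exact hS
      · exact hWS
    refine h1.mono ?_
    rintro _ ⟨y, hy, rfl⟩
    by_cases hyW : y ∈ W
    · exact mem_iUnion.2 ⟨1, by simpa using ⟨y, hyW, rfl⟩⟩
    · exact mem_iUnion.2 ⟨0, by simpa using ⟨y, ⟨hBO hy, hyW⟩, rfl⟩⟩
  have hFn : F.Nonempty := by
    by_contra h
    apply hcon
    have : W = univ := by
      rw [Set.not_nonempty_iff_eq_empty, hF, compl_empty_iff] at h
      exact h
    rw [this, image_univ, hr] at hWS
    exact hWS
  -- closures of portions have positive measure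
  have hpos : ∀ O : Set (ℕ → ℕ), IsOpen O → (O ∩ F).Nonempty →
      volume (closure (φ '' (O ∩ F))) ≠ 0 := by
    intro O hO hne h0
    exact hport O hO hne ((SE.of_closed isClosed_closure h0).mono subset_closure)
  -- the meagre cover
  obtain ⟨S, hS1, hS2, hS3⟩ := isMeagre_iff_countable_union_isNowhereDense.1 hme
  have hSne : S.Nonempty := by
    by_contra h
    rw [Set.not_nonempty_iff_eq_empty] at h
    rw [h, sUnion_empty] at hS3
    exact (hS3 (zero_mem H)).elim
  obtain ⟨N, hN⟩ := hS2.exists_eq_range hSne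
  have hNn : ∀ n, IsNowhereDense (N n) := fun n => hS1 _ (by rw [hN]; exact ⟨n, rfl⟩)
  have hcov : (H : Set ℝ) ⊆ ⋃ n, closure (N n) := by
    intro x hx
    obtain ⟨T, hT, hxT⟩ := mem_sUnion.1 (hS3 hx)
    rw [hN] at hT
    obtain ⟨n, rfl⟩ := hT
    exact mem_iUnion.2 ⟨n, subset_closure hxT⟩
  -- Baire
  have hPF : IsClosed F := hFc
  have : PolishSpace F := hFc.polishSpace
  have hFne : Nonempty F := hFn.to_subtype
  set Φ : F × F → ℝ := fun p => φ p.1 - φ p.2 with hΦ
  have hΦc : Continuous Φ :=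
    (hφ.comp (continuous_subtype_val.comp continuous_fst)).sub
      (hφ.comp (continuous_subtype_val.comp continuous_snd))
  have hmem : ∀ y, φ y ∈ H := fun y => by
    have : φ y ∈ (H : Set ℝ) := by rw [← hr]; exact ⟨y, rfl⟩
    exact this
  have hU : ⋃ n, Φ ⁻¹' (closure (N n)) = univ := by
    rw [← preimage_iUnion, eq_univ_iff_forall]
    intro p
    exact hcov (H.sub_mem (hmem _) (hmem _))
  obtain ⟨n, ⟨p, hp⟩⟩ := nonempty_interior_of_iUnion_of_closed
    (fun n => isClosed_closure.preimage hΦc) hU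
  obtain ⟨O₁, O₂, hO₁, hO₂, hp1, hp2, hO⟩ := isOpen_prod_iff.1
    (isOpen_interior (s := Φ ⁻¹' (closure (N n)))) p.1 p.2 hp
  obtain ⟨U₁, hU₁, rfl⟩ := isOpen_induced_iff.1 hO₁
  obtain ⟨U₂, hU₂, rfl⟩ := isOpen_induced_iff.1 hO₂
  have hA0 := hpos U₁ hU₁ ⟨p.1, hp1, p.1.2⟩
  have hB0 := hpos U₂ hU₂ ⟨p.2, hp2, p.2.2⟩
  have hsub : closure (φ '' (U₁ ∩ F)) - closure (φ '' (U₂ ∩ F)) ⊆ closure (N n) := by
    rintro z hz
    obtain ⟨a, ha, b, hb, rfl⟩ := mem_sub.1 hz
    have hab : (a, b) ∈ closure ((φ '' (U₁ ∩ F)) ×ˢ (φ '' (U₂ ∩ F))) := by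
      rw [closure_prod_eq]
      exact ⟨ha, hb⟩
    have h0 : a - b ∈ closure ((fun p : ℝ × ℝ => p.1 - p.2) ''
        ((φ '' (U₁ ∩ F)) ×ˢ (φ '' (U₂ ∩ F)))) :=
      image_closure_subset_closure_image (continuous_fst.sub continuous_snd) ⟨(a, b), hab, rfl⟩
    refine closure_minimal ?_ isClosed_closure h0
    rintro _ ⟨⟨_, _⟩, ⟨⟨x, hx, rfl⟩, ⟨y, hy, rfl⟩⟩, rfl⟩
    have h1 : ((⟨x, hx.2⟩ : F), (⟨y, hy.2⟩ : F)) ∈ Φ ⁻¹' (closure (N n)) :=
      interior_subset (hO ⟨hx.1, hy.1⟩)
    exact h1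
  obtain ⟨z, hz⟩ := steinhaus_two isClosed_closure.measurableSet isClosed_closure.measurableSet
    hA0 hB0
  have h1 : z ∈ interior (closure (N n)) := interior_mono hsub hz
  have h2 : interior (closure (N n)) = ∅ := hNn n
  rw [h2] at h1
  exact h1

/-! ### Plasticity -/

/-- A metric space is plastic if every non-expansive bijection of it is an isometry. -/
def Plastic (X : Type) [MetricSpace X] : Prop :=
  ∀ f : X → X, Function.Bijective f → (∀ x y, dist (f x) (f y) ≤ dist x y) → Isometry f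

theorem not_plastic_of_SE (H : AddSubgroup ℝ) (hd : Dense (H : Set ℝ)) (hS : SE (H : Set ℝ)) :
    ¬ Plastic H := by
  obtain ⟨K, h1, h2, h3⟩ := hS
  obtain ⟨f, hm, hl, hb, x, hx, y, hy, hxy, hlt⟩ := core H hd K h1 h2 h3
  intro hP
  set g : H → H := fun z => ⟨f z, hb.mapsTo z.2⟩ with hg
  have hgb : Function.Bijective g := by
    constructor
    · intro u v huv
      apply Subtype.ext
      exact hb.injOn u.2 v.2 (congrArg Subtype.val huv)
    · intro v
      obtain ⟨u, hu, huv⟩ := hb.surjOn v.2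
      exact ⟨⟨u, hu⟩, Subtype.ext huv⟩
  have key : ∀ u v : H, (u : ℝ) ≤ v → dist (g u) (g v) = f v - f u := by
    intro u v huv
    rw [dist_comm, Subtype.dist_eq, Real.dist_eq, abs_of_nonneg (sub_nonneg.2 (hm huv))]
  have key2 : ∀ u v : H, (u : ℝ) ≤ v → dist u v = v - u := by
    intro u v huv
    rw [dist_comm, Subtype.dist_eq, Real.dist_eq, abs_of_nonneg (sub_nonneg.2 huv)]
  have hne : ∀ u v : H, dist (g u) (g v) ≤ dist u v := by
    intro u v
    rcases le_total (u : ℝ) v with h | h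
    · rw [key u v h, key2 u v h]
      exact hl u v h
    · rw [dist_comm, dist_comm u v, key v u h, key2 v u h]
      exact hl v u h
  have hiso := hP g hgb hne
  have h4 := hiso.dist_eq ⟨x, hx⟩ ⟨y, hy⟩
  rw [key _ _ (le_of_lt hxy), key2 _ _ (le_of_lt hxy)] at h4
  simp only at h4
  linarith

theorem not_plastic_top (H : AddSubgroup ℝ) (h : H = ⊤) : ¬ Plastic H := by
  subst h
  intro hP
  set g : (⊤ : AddSubgroup ℝ) → (⊤ : AddSubgroup ℝ) := fun z => ⟨z / 2, AddSubgroup.mem_top _⟩
    with hg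
  have hgb : Function.Bijective g := by
    constructor
    · intro u v huv
      apply Subtype.ext
      have := congrArg Subtype.val huv
      simp only [hg] at this
      linarith
    · intro v
      refine ⟨⟨2 * v, AddSubgroup.mem_top _⟩, Subtype.ext ?_⟩
      simp only [hg]
      ring
  have hne : ∀ u v, dist (g u) (g v) = dist u v / 2 := by
    intro u v
    rw [Subtype.dist_eq, Subtype.dist_eq, Real.dist_eq, Real.dist_eq]
    simp only [hg]
    rw [← sub_div, abs_div, abs_two]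
  have hiso := hP g hgb fun u v => by
    rw [hne]
    have := dist_nonneg (x := u) (y := v)
    linarith
  have h4 := hiso.dist_eq ⟨0, AddSubgroup.mem_top _⟩ ⟨1, AddSubgroup.mem_top _⟩
  rw [hne, Subtype.dist_eq, Real.dist_eq] at h4
  norm_num at h4

/-- No dense analytic subgroup of the line is plastic. -/
theorem not_plastic_analytic (H : AddSubgroup ℝ) (hd : Dense (H : Set ℝ))
    (hH : AnalyticSet (H : Set ℝ)) : ¬ Plastic H := by
  by_cases htop : H = ⊤
  · exact not_plastic_top H htop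
  · exact not_plastic_of_SE H hd (SE_of_analytic H hH htop)

end Pool.Agent.X216.EPlastic
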