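import Pool.Agent.H566W.Ana

/-!
# A countable union of compact sets in the Cantor group with an uncountable but no perfect clique

There is an `F_σ` set `A` in the group `Γ = 2^{<ω} → ZMod 2` such that some uncountable set has all
its sums of pairs of distinct elements in `A`, but there is no perfect set with this property. The
points of `A` code the pairs `{x, y}` such that `x` is one of the columns of `y`.
-/

set_option autoImplicit false

open Set Filter Topology MeasureTheory

namespace Pool.Agent.X216.TR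

/-- the Cantor space of parameters -/
abbrev K : Type := ℕ → Bool

/-- the group -/
abbrev Γ : Type := List Bool → ZMod 2

/-- initial segments -/
def br (x : K) (n : ℕ) : List Bool := List.ofFn fun i : Fin n => x i

lemma length_br (x : K) (n : ℕ) : (br x n).length = n := List.length_ofFn

lemma br_eq {x y : K} {n : ℕ} (h : br x n = br y n) {i : ℕ} (hi : i < n) : x i = y i :=
  congrFun (List.ofFn_injective h) ⟨i, hi⟩

/-- the characteristic function of the set of initial segments -/
def φ (x : K) : Γ := fun s => if br x s.length = s then 1 else 0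

lemma φ_br (x y : K) (n : ℕ) : φ x (br y n) = if br x n = br y n then 1 else 0 := by
  show (if br x (br y n).length = br y n then _ else _) = _
  rw [length_br]

lemma continuous_φ : Continuous φ := by
  refine continuous_pi fun s => ?_
  have h1 : Continuous fun x : K => fun i : Fin s.length => x i :=
    continuous_pi fun i => continuous_apply _
  have h2 : Continuous fun z : Fin s.length → Bool => (if List.ofFn z = s then 1 else 0 : ZMod 2) :=
    continuous_of_discreteTopology
  exact h2.comp h1

/-- Kronecker delta -/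
noncomputable def dl (t p : K) : ZMod 2 := open Classical in if t = p then 1 else 0

lemma dl_self (t : K) : dl t t = 1 := if_pos rfl

lemma dl_ne {t p : K} (h : t ≠ p) : dl t p = 0 := if_neg h

lemma ev (t p : K) : ∀ᶠ n in atTop, φ p (br t n) = dl t p := by
  by_cases h : t = p
  · subst h
    refine Eventually.of_forall fun n => ?_
    rw [φ_br, if_pos rfl, dl_self]
  · obtain ⟨i, hi⟩ := Function.ne_iff.1 h
    filter_upwards [eventually_gt_atTop i] with n hn
    rw [φ_br, dl_ne h, if_neg]
    intro h1
    exact hi (br_eq h1 hn).symm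

lemma eq2 {a b c d : K} (h : φ a + φ b = φ c + φ d) (t : K) :
    dl t a + dl t b = dl t c + dl t d := by
  obtain ⟨n, h1, h2, h3, h4⟩ := ((ev t a).and ((ev t b).and ((ev t c).and (ev t d)))).exists
  have := congrFun h (br t n)
  simp only [Pi.add_apply, h1, h2, h3, h4] at this
  exact this

lemma eq4 {a b c d p q : K} (h : φ a + φ b + φ c + φ d = φ p + φ q) (t : K) :
    dl t a + dl t b + dl t c + dl t d = dl t p + dl t q := by
  obtain ⟨n, h1, h2, h3, h4, h5, h6⟩ := ((ev t a).and ((ev t b).and ((ev t c).and ((ev t d).and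
    ((ev t p).and (ev t q)))))).exists
  have := congrFun h (br t n)
  simp only [Pi.add_apply, h1, h2, h3, h4, h5, h6] at this
  exact this

lemma injective_φ : Function.Injective φ := by
  intro x y h
  by_contra hne
  obtain ⟨n, h1, h2⟩ := ((ev x x).and (ev x y)).exists
  rw [h, h2, dl_ne hne, dl_self] at h1
  exact zero_ne_one h1

lemma two_mul_φ (z : Γ) : z + z = 0 := by
  funext s
  exact CharTwo.add_self_eq_zero _

lemma pair_eq {a b c d : K} (hab : a ≠ b) (h : φ a + φ b = φ c + φ d) :
    (a = c ∧ b = d) ∨ (a = d ∧ b = c) := by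
  have h1 := eq2 h a
  have h2 := eq2 h b
  rw [dl_self, dl_ne hab] at h1
  rw [dl_self, dl_ne hab.symm] at h2
  have h3 : a = c ∨ a = d := by
    by_contra hcon
    push Not at hcon
    rw [dl_ne hcon.1, dl_ne hcon.2] at h1
    revert h1
    decide
  have h4 : b = c ∨ b = d := by
    by_contra hcon
    push Not at hcon
    rw [dl_ne hcon.1, dl_ne hcon.2] at h2
    revert h2
    decide
  rcases h3 with rfl | rfl
  · rcases h4 with rfl | rfl
    · exact absurd rfl hab
    · exact Or.inl ⟨rfl, rfl⟩
  · rcases h4 with rfl | rfl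
    · exact Or.inr ⟨rfl, rfl⟩
    · exact absurd rfl hab

/-- four distinct elements cannot have the same sum as two elements -/
lemma four {a b c d p q : K} (h : φ a + φ b + φ c + φ d = φ p + φ q) (hab : a ≠ b) (hac : a ≠ c)
    (had : a ≠ d) (hbc : b ≠ c) (hbd : b ≠ d) (hcd : c ≠ d) : False := by
  classical
  have h1 := eq4 h a
  have h2 := eq4 h b
  have h3 := eq4 h c
  rw [dl_self, dl_ne hab, dl_ne hac, dl_ne had] at h1
  rw [dl_self, dl_ne hab.symm, dl_ne hbc, dl_ne hbd] at h2
  rw [dl_self, dl_ne hac.symm, dl_ne hbc.symm, dl_ne hcd] at h3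
  have e1 : a = p ∨ a = q := by
    by_contra hcon
    push Not at hcon
    rw [dl_ne hcon.1, dl_ne hcon.2] at h1
    revert h1
    decide
  have e2 : b = p ∨ b = q := by
    by_contra hcon
    push Not at hcon
    rw [dl_ne hcon.1, dl_ne hcon.2] at h2
    revert h2
    decide
  have e3 : c = p ∨ c = q := by
    by_contra hcon
    push Not at hcon
    rw [dl_ne hcon.1, dl_ne hcon.2] at h3
    revert h3
    decide
  rcases e1 with rfl | rfl <;> rcases e2 with rfl | rfl <;> rcases e3 with rfl | rfl <;>
    first | exact absurd rfl hab | exact absurd rfl hac | exact absurd rfl hbc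

/-! ### The relation -/

/-- the `n`-th column -/
def col (n : ℕ) (y : K) : K := fun k => y (Nat.pair n k)

lemma continuous_col (n : ℕ) : Continuous (col n) := continuous_pi fun _ => continuous_apply _

/-- one of the two elements is a column of the other one -/
def R (x y : K) : Prop := (∃ n, x = col n y) ∨ ∃ n, y = col n x

lemma R_symm {x y : K} (h : R x y) : R y x := h.symm

lemma exists_clique : ∃ H : Set K, ¬ H.Countable ∧ H.Pairwise R := by
  obtain ⟨H, hH⟩ := zorn_subset {H : Set K | H.Pairwise R} (by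
    intro c hc hchain
    refine ⟨⋃₀ c, ?_, fun s hs => subset_sUnion_of_mem hs⟩
    exact (Set.pairwise_sUnion hchain.directedOn).2 fun s hs => hc hs)
  refine ⟨H, fun hcount => ?_, hH.prop⟩
  have hex : ∃ e : ℕ → K, H ⊆ range e := by
    rcases H.eq_empty_or_nonempty with h | h
    · exact ⟨fun _ _ => false, by rw [h]; exact empty_subset _⟩
    · obtain ⟨e, he⟩ := hcount.exists_eq_range h
      exact ⟨e, he.subset⟩
  obtain ⟨e, he⟩ := hex
  let y : K := fun m => if (Nat.unpair m).1 % 2 = 0 then e ((Nat.unpair m).1 / 2) (Nat.unpair m).2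
    else ! e ((Nat.unpair m).1 / 2) m
  have hcol : ∀ n, e n = col (2 * n) y := by
    intro n
    funext k
    show e n k = if (Nat.unpair (Nat.pair (2 * n) k)).1 % 2 = 0 then _ else _
    rw [Nat.unpair_pair]
    simp
  have hy : y ∉ H := by
    intro hyH
    obtain ⟨n, hn⟩ := he hyH
    have h1 := congrFun hn (Nat.pair (2 * n + 1) 0)
    have h2 : y (Nat.pair (2 * n + 1) 0) = ! e n (Nat.pair (2 * n + 1) 0) := by
      show (if (Nat.unpair (Nat.pair (2 * n + 1) 0)).1 % 2 = 0 then _ else _) = _
      rw [Nat.unpair_pair]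
      have h3 : (2 * n + 1) / 2 = n := by omega
      simp [h3]
    rw [h2] at h1
    revert h1
    cases e n (Nat.pair (2 * n + 1) 0) <;> simp
  have hins : (insert y H).Pairwise R := by
    refine (hH.prop).insert fun x hx _ => ?_
    obtain ⟨n, rfl⟩ := he hx
    exact ⟨Or.inr ⟨2 * n, hcol n⟩, Or.inl ⟨2 * n, hcol n⟩⟩
  exact hy (hH.le_of_ge hins (subset_insert y H) (mem_insert y H))

instance : PolishSpace (K × K) := {}

lemma no_perfect {r : K → K} (hr : Continuous r) (hi : Function.Injective r)
    (h : ∀ b b', b ≠ b' → R (r b) (r b')) : False := by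
  have hA : AnalyticSet {p : K × K | p.1 = p.2 ∨ ∃ n, r p.2 = col n (r p.1)} := by
    have h1 : {p : K × K | p.1 = p.2 ∨ ∃ n, r p.2 = col n (r p.1)} =
        ⋃ n, ({p : K × K | p.1 = p.2} ∪ {p : K × K | r p.2 = col n (r p.1)}) := by
      ext p
      simp [exists_or]
    rw [h1]
    refine AnalyticSet.iUnion fun n => IsClosed.analyticSet (IsClosed.union ?_ ?_)
    · exact isClosed_eq continuous_fst continuous_snd
    · exact isClosed_eq (hr.comp continuous_snd)
        ((continuous_col n).comp (hr.comp continuous_fst))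
  have hc : ∀ x : K, {y | x = y ∨ ∃ n, r y = col n (r x)}.Countable := by
    intro x
    have h1 : {y | x = y ∨ ∃ n, r y = col n (r x)} ⊆ {x} ∪ ⋃ n, {y | r y = col n (r x)} := by
      rintro y (rfl | ⟨n, hn⟩)
      · exact Or.inl rfl
      · exact Or.inr (mem_iUnion.2 ⟨n, hn⟩)
    refine Set.Countable.mono h1 ((countable_singleton x).union (countable_iUnion fun n => ?_))
    refine Set.Subsingleton.countable ?_
    intro y hy y' hy'
    have hy1 : r y = col n (r x) := hy
    have hy2 : r y' = col n (r x) := hy'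
    exact hi (hy1.trans hy2.symm)
  obtain ⟨g, -, hg⟩ := Pool.Agent.H566W.perfect_independent
    (fun x y => x = y ∨ ∃ n, r y = col n (r x)) hA hc
  have hne : (fun _ => true : K) ≠ fun _ => false := by
    intro h
    exact Bool.noConfusion (congrFun h 0)
  have h1 := hg _ _ hne
  have h2 := hg _ _ hne.symm
  push Not at h1 h2
  rcases h _ _ h1.1 with ⟨n, hn⟩ | ⟨n, hn⟩
  · exact h2.2 n hn
  · exact h1.2 n hn

/-! ### The set -/

/-- the set of codes -/
def A : Set Γ := {z | ∃ x y : K, x ≠ y ∧ (∃ n, x = col n y) ∧ z = φ x + φ y}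

lemma mem_A_iff {x y : K} (h : x ≠ y) : φ x + φ y ∈ A ↔ R x y := by
  constructor
  · rintro ⟨a, b, hab, ⟨n, hn⟩, he⟩
    rcases pair_eq h he with ⟨rfl, rfl⟩ | ⟨rfl, rfl⟩
    · exact Or.inl ⟨n, hn⟩
    · exact Or.inr ⟨n, hn⟩
  · rintro (h1 | h1)
    · exact ⟨x, y, h, h1, rfl⟩
    · exact ⟨y, x, h.symm, h1, add_comm _ _⟩

lemma zero_notMem : (0 : Γ) ∉ A := by
  rintro ⟨x, y, h, -, he⟩
  apply h
  apply injective_φ
  have h1 : φ x = φ x + (φ x + φ y) := by rw [← he, add_zero]
  rw [← add_assoc, two_mul_φ, zero_add] at h1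
  exact h1

/-- the compact pieces -/
def piece (n k : ℕ) : Set Γ :=
  (fun p : K × K => φ p.1 + φ p.2) '' {p | p.1 = col n p.2 ∧ p.1 k ≠ p.2 k}

lemma compact_piece (n k : ℕ) : IsCompact (piece n k) := by
  refine IsCompact.image (IsClosed.isCompact (IsClosed.inter ?_ ?_)) ?_
  · exact isClosed_eq continuous_fst ((continuous_col n).comp continuous_snd)
  · have h1 : Continuous fun p : K × K => (p.1 k, p.2 k) := by fun_prop
    have h2 : IsClosed {q : Bool × Bool | q.1 ≠ q.2} := isClosed_discrete _
    exact h2.preimage h1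
  · exact (continuous_φ.comp continuous_fst).add (continuous_φ.comp continuous_snd)

lemma A_eq : A = ⋃ m : ℕ, piece (Nat.unpair m).1 (Nat.unpair m).2 := by
  ext z
  simp only [mem_iUnion]
  constructor
  · rintro ⟨x, y, h, ⟨n, hn⟩, rfl⟩
    obtain ⟨k, hk⟩ := Function.ne_iff.1 h
    refine ⟨Nat.pair n k, ?_⟩
    rw [Nat.unpair_pair]
    exact ⟨(x, y), ⟨hn, hk⟩, rfl⟩
  · rintro ⟨m, ⟨x, y⟩, ⟨h1, h2⟩, rfl⟩
    refine ⟨x, y, fun h => ?_, ⟨_, h1⟩, rfl⟩
    exact h2 (congrFun h _)

lemma add_eq_of {x y z : Γ} (h : x + y = z) : y = x + z := by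
  rw [← h, ← add_assoc, two_mul_φ, zero_add]

/-- the sum of two elements of a translate of the independent set -/
lemma tr_add (c x y : Γ) : (c + x) + (c + y) = x + y := by
  rw [add_add_add_comm, two_mul_φ, zero_add]

/-- The star lemma: up to one exception, a set all of whose sums of pairs of distinct elements are
sums of two elements of the independent set is included in a translate of this set. -/
lemma star {F : K → Γ} (hi : Function.Injective F)
    (h : ∀ b b', b ≠ b' → ∃ p q, p ≠ q ∧ F b + F b' = φ p + φ q) :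
    ∃ c e : Γ, ∀ b, (∃ r, F b = c + φ r) ∨ F b = e := by
  -- three points in a translate
  obtain ⟨b₀, b₁, b₂, h01, h02, h12⟩ : ∃ b₀ b₁ b₂ : K, b₀ ≠ b₁ ∧ b₀ ≠ b₂ ∧ b₁ ≠ b₂ := by
    refine ⟨fun _ => true, fun _ => false, fun n => decide (n = 0), ?_, ?_, ?_⟩
    · intro h; exact Bool.noConfusion (congrFun h 0)
    · intro h; exact Bool.noConfusion (congrFun h 1)
    · intro h; exact Bool.noConfusion (congrFun h 0)
  have key : ∃ c : Γ, ∃ p q q' : K, F b₀ = c + φ p ∧ F b₁ = c + φ q ∧ F b₂ = c + φ q' := by
    obtain ⟨p, q, hpq, e1⟩ := h _ _ h01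
    obtain ⟨p', q', hpq', e2⟩ := h _ _ h02
    obtain ⟨r, s, -, e3⟩ := h _ _ h12
    have e4 : φ p + φ q + φ p' + φ q' = φ r + φ s := by
      rw [← e3, add_assoc (φ p + φ q), ← e1, ← e2, add_add_add_comm, two_mul_φ, zero_add]
    have e1' := add_eq_of e1
    have e2' := add_eq_of e2
    have hcase : p = p' ∨ p = q' ∨ q = p' ∨ q = q' := by
      by_contra hcon
      push Not at hcon
      exact four e4 hpq hcon.1 hcon.2.1 hcon.2.2.1 hcon.2.2.2 hpq'
    have hF : ∀ t, F b₀ = (F b₀ + φ t) + φ t := by
      intro t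
      rw [add_assoc, two_mul_φ, add_zero]
    rcases hcase with rfl | rfl | rfl | rfl
    · exact ⟨F b₀ + φ p, p, q, q', hF p, by rw [e1', add_assoc], by rw [e2', add_assoc]⟩
    · exact ⟨F b₀ + φ p, p, q, p', hF p, by rw [e1', add_assoc],
        by rw [e2', add_assoc, add_comm (φ p)]⟩
    · exact ⟨F b₀ + φ q, q, p, q', hF q, by rw [e1', add_assoc, add_comm (φ q)],
        by rw [e2', add_assoc]⟩
    · exact ⟨F b₀ + φ q, q, p, p', hF q, by rw [e1', add_assoc, add_comm (φ q)],
        by rw [e2', add_assoc, add_comm (φ q)]⟩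
  obtain ⟨c, p, q, q', e0, e1, e2⟩ := key
  have hpq : p ≠ q := by
    rintro rfl
    exact h01 (hi (e0.trans e1.symm))
  have hpq' : p ≠ q' := by
    rintro rfl
    exact h02 (hi (e0.trans e2.symm))
  have hqq' : q ≠ q' := by
    rintro rfl
    exact h12 (hi (e1.trans e2.symm))
  refine ⟨c, c + φ p + φ q + φ q', fun b => ?_⟩
  by_cases hb0 : b = b₀
  · exact Or.inl ⟨p, by rw [hb0, e0]⟩
  by_cases hb1 : b = b₁
  · exact Or.inl ⟨q, by rw [hb1, e1]⟩
  by_cases hb2 : b = b₂
  · exact Or.inl ⟨q', by rw [hb2, e2]⟩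
  obtain ⟨x, y, hxy, f0⟩ := h b₀ b (Ne.symm hb0)
  have f0' : F b = c + φ p + φ x + φ y := by
    rw [add_eq_of f0, e0, add_assoc (c + φ p)]
  by_cases hpx : p = x
  · left
    refine ⟨y, ?_⟩
    rw [f0', hpx, add_assoc c, two_mul_φ, add_zero]
  by_cases hpy : p = y
  · left
    refine ⟨x, ?_⟩
    rw [f0', hpy, add_right_comm, add_assoc c, two_mul_φ, add_zero]
  right
  have hmem : ∀ t b', b ≠ b' → F b' = c + φ t → p ≠ t → t = x ∨ t = y := by
    intro t b' hbb ht hpt
    obtain ⟨r, s, -, g⟩ := h b b' hbb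
    by_contra hcon
    push Not at hcon
    have g' : φ p + φ x + φ y + φ t = φ r + φ s := by
      rw [← g, f0', ht]
      have : c + φ p + φ x + φ y + (c + φ t) = (c + c) + (φ p + φ x + φ y + φ t) := by abel
      rw [this, two_mul_φ, zero_add]
    exact four g' hpx hpy hpt hxy hcon.1.symm hcon.2.symm
  have m1 := hmem q b₁ hb1 e1 hpq
  have m2 := hmem q' b₂ hb2 e2 hpq'
  rcases m1 with rfl | rfl
  · rcases m2 with rfl | rfl
    · exact absurd rfl hqq'
    · exact f0'
  · rcases m2 with rfl | rfl
    · rw [f0', add_right_comm]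
    · exact absurd rfl hqq'

/-- put a bit in front of a sequence -/
def cons (e : Bool) (b : K) : K := fun n => Nat.casesOn n e b

lemma continuous_cons (e : Bool) : Continuous (cons e) := by
  refine continuous_pi fun n => ?_
  cases n with
  | zero => exact continuous_const
  | succ n => exact continuous_apply n

lemma cons_inj (e : Bool) : Function.Injective (cons e) := by
  intro b b' h
  funext n
  exact congrFun h (n + 1)

/-- There is no perfect set all of whose sums of two distinct elements are in `A`. -/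
theorem no_perfect_A {F : K → Γ} (hF : Continuous F) (hi : Function.Injective F) :
    ∃ b b', b ≠ b' ∧ F b + F b' ∉ A := by
  by_contra hcon
  push Not at hcon
  obtain ⟨c, e, hce⟩ := star hi (fun b b' hbb => by
    obtain ⟨x, y, h1, -, h2⟩ := hcon b b' hbb
    exact ⟨x, y, h1, h2⟩)
  obtain ⟨e', he'⟩ : ∃ e' : Bool, ∀ b, F (cons e' b) ≠ e := by
    by_cases h : ∃ b, F b = e
    · obtain ⟨b, hb⟩ := h
      refine ⟨! b 0, fun b' hb' => ?_⟩
      have h1 : cons (! b 0) b' = b := hi (hb'.trans hb.symm)
      have h2 : (! b 0) = b 0 := congrFun h1 0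
      revert h2
      cases b 0 <;> simp
    · push Not at h
      exact ⟨true, fun b => h _⟩
  have hex : ∀ b, ∃ r, F (cons e' b) = c + φ r := fun b => (hce (cons e' b)).resolve_right (he' b)
  choose r hr using hex
  have hri : Function.Injective r := by
    intro b b' h
    apply cons_inj e'
    apply hi
    rw [hr, hr, h]
  have hrc : Continuous r := by
    have h1 : IsClosedEmbedding φ := continuous_φ.isClosedEmbedding injective_φ
    rw [h1.isInducing.continuous_iff]
    have h2 : φ ∘ r = fun b => c + F (cons e' b) := by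
      funext b
      exact add_eq_of (hr b).symm
    rw [h2]
    exact continuous_const.add (hF.comp (continuous_cons e'))
  refine no_perfect hrc hri fun b b' hbb => ?_
  have h1 := hcon (cons e' b) (cons e' b') (fun h => hbb (cons_inj e' h))
  rw [hr, hr, tr_add] at h1
  exact (mem_A_iff fun h => hbb (hri h)).1 h1

/-- There is an uncountable set all of whose sums of two distinct elements are in `A`. -/
theorem exists_uncountable : ∃ H : Set Γ, ¬ H.Countable ∧
    ∀ x ∈ H, ∀ y ∈ H, x ≠ y → x + y ∈ A := by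
  obtain ⟨H, h1, h2⟩ := exists_clique
  refine ⟨φ '' H, fun h => h1 ?_, ?_⟩
  · exact (countable_of_injective_of_countable_image injective_φ.injOn h)
  · rintro _ ⟨x, hx, rfl⟩ _ ⟨y, hy, rfl⟩ hne
    have hxy : x ≠ y := fun h => hne (by rw [h])
    exact (mem_A_iff hxy).2 (h2 hx hy hxy)

end Pool.Agent.X216.TR
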